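import Pool.Agent.Helper28.EF.Defs

set_option autoImplicit false

/-!
# EF-07: arithmetic of `E` and `Dl`

All statements are verified by the eight cases of `(l % 2, m % 2, n % 2)`: unfold `E`, `Dl`, decide the `if`s
(`Int.emod_two_eq`), compute `(l + m + n) % 2` etc. by `omega`, and finish with `ring`/`nlinarith`-free
`linarith` after `ring_nf` (treat the squares as atoms).
-/

namespace Pool.Agent.Helper28.EF

theorem E_sum (l m n : ℤ) : E l m n + E (l - 1) m n + E l (m - 1) n + E l m (n - 1) = 1 := by
  unfold E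
  rcases Int.emod_two_eq l with hl | hl <;> rcases Int.emod_two_eq m with hm | hm <;>
    rcases Int.emod_two_eq n with hn | hn <;> split_ifs <;> omega

theorem E_add_one (l m n : ℤ) : E (l + 1) m n = E (l - 1) m n := by
  unfold E
  rcases Int.emod_two_eq l with hl | hl <;> rcases Int.emod_two_eq m with hm | hm <;>
    rcases Int.emod_two_eq n with hn | hn <;> split_ifs <;> omega

theorem E_add_one' (l m n : ℤ) : E (l + 1) (m - 1) n = E l m (n - 1) := by
  unfold E
  rcases Int.emod_two_eq l with hl | hl <;> rcases Int.emod_two_eq m with hm | hm <;>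
    rcases Int.emod_two_eq n with hn | hn <;> split_ifs <;> omega

theorem E_add_one'' (l m n : ℤ) : E (l + 1) m (n - 1) = E l (m - 1) n := by
  unfold E
  rcases Int.emod_two_eq l with hl | hl <;> rcases Int.emod_two_eq m with hm | hm <;>
    rcases Int.emod_two_eq n with hn | hn <;> split_ifs <;> omega

theorem E_swap12 (l m n : ℤ) : E m l n = E l m n := by
  unfold E
  rcases Int.emod_two_eq l with hl | hl <;> rcases Int.emod_two_eq m with hm | hm <;>
    rcases Int.emod_two_eq n with hn | hn <;> split_ifs <;> omega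

theorem E_swap13 (l m n : ℤ) : E n m l = E l m n := by
  unfold E
  rcases Int.emod_two_eq l with hl | hl <;> rcases Int.emod_two_eq m with hm | hm <;>
    rcases Int.emod_two_eq n with hn | hn <;> split_ifs <;> omega

theorem Dl_swap12 (l m n : ℤ) : Dl m l n = Dl l m n := by
  unfold Dl E
  rcases Int.emod_two_eq l with hl | hl <;> rcases Int.emod_two_eq m with hm | hm <;>
    rcases Int.emod_two_eq n with hn | hn <;> split_ifs <;>
    first
    | (exfalso; omega)
    | (push_cast; ring_nf; done)
    | (push_cast; ring_nf; omega)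

theorem Dl_swap13 (l m n : ℤ) : Dl n m l = Dl l m n := by
  unfold Dl E
  rcases Int.emod_two_eq l with hl | hl <;> rcases Int.emod_two_eq m with hm | hm <;>
    rcases Int.emod_two_eq n with hn | hn <;> split_ifs <;>
    first
    | (exfalso; omega)
    | (push_cast; ring_nf; done)
    | (push_cast; ring_nf; omega)

theorem Dl_opp1 (l m n : ℤ) : Dl (l - 1) (m - 1) (n - 1) + Dl l m n + 4 * (E l m n : ℤ) =
    2 * (l * (l - 1) + m * (m - 1) + n * (n - 1)) := by
  unfold Dl E
  rcases Int.emod_two_eq l with hl | hl <;> rcases Int.emod_two_eq m with hm | hm <;>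
    rcases Int.emod_two_eq n with hn | hn <;> split_ifs <;>
    first
    | (exfalso; omega)
    | (push_cast; ring_nf; done)
    | (push_cast; ring_nf; omega)

theorem Dl_opp2 (l m n : ℤ) : Dl (l - 1) m n + Dl l (m - 1) (n - 1) + 4 * (E (l - 1) m n : ℤ) =
    2 * (l * (l - 1) + m * (m - 1) + n * (n - 1)) := by
  unfold Dl E
  rcases Int.emod_two_eq l with hl | hl <;> rcases Int.emod_two_eq m with hm | hm <;>
    rcases Int.emod_two_eq n with hn | hn <;> split_ifs <;>
    first
    | (exfalso; omega)
    | (push_cast; ring_nf; done)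
    | (push_cast; ring_nf; omega)

theorem Dl_opp3 (l m n : ℤ) : Dl l (m - 1) n + Dl (l - 1) m (n - 1) + 4 * (E l (m - 1) n : ℤ) =
    2 * (l * (l - 1) + m * (m - 1) + n * (n - 1)) := by
  unfold Dl E
  rcases Int.emod_two_eq l with hl | hl <;> rcases Int.emod_two_eq m with hm | hm <;>
    rcases Int.emod_two_eq n with hn | hn <;> split_ifs <;>
    first
    | (exfalso; omega)
    | (push_cast; ring_nf; done)
    | (push_cast; ring_nf; omega)

theorem Dl_opp4 (l m n : ℤ) : Dl l m (n - 1) + Dl (l - 1) (m - 1) n + 4 * (E l m (n - 1) : ℤ) =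
    2 * (l * (l - 1) + m * (m - 1) + n * (n - 1)) := by
  unfold Dl E
  rcases Int.emod_two_eq l with hl | hl <;> rcases Int.emod_two_eq m with hm | hm <;>
    rcases Int.emod_two_eq n with hn | hn <;> split_ifs <;>
    first
    | (exfalso; omega)
    | (push_cast; ring_nf; done)
    | (push_cast; ring_nf; omega)

theorem Dl_face (l m n : ℤ) :
    4 + Dl l (m - 1) n + Dl l m (n - 1) + Dl l m n + Dl l (m - 1) (n - 1) =
    2 * (l * (l - 1) + m * (m - 1) + n * (n - 1)) +
      2 * ((l + 1) * (l + 1 - 1) + m * (m - 1) + n * (n - 1)) := by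
  unfold Dl E
  rcases Int.emod_two_eq l with hl | hl <;> rcases Int.emod_two_eq m with hm | hm <;>
    rcases Int.emod_two_eq n with hn | hn <;> split_ifs <;>
    first
    | (exfalso; omega)
    | (push_cast; ring_nf; done)
    | (push_cast; ring_nf; omega)

theorem Dl_even (l m n : ℤ) (h : (l + m + n) % 2 = 0) :
    Dl (l - 1) (m - 1) (n - 1) + Dl (l - 1) m n + Dl l (m - 1) n + Dl l m (n - 1) =
    4 * (l * (l - 1) + m * (m - 1) + n * (n - 1)) := by
  unfold Dl E
  rcases Int.emod_two_eq l with hl | hl <;> rcases Int.emod_two_eq m with hm | hm <;>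
    rcases Int.emod_two_eq n with hn | hn <;> split_ifs <;>
    first
    | (exfalso; omega)
    | (push_cast; ring_nf; done)
    | (push_cast; ring_nf; omega)

theorem Dl_odd (l m n : ℤ) (h : (l + m + n) % 2 ≠ 0) :
    Dl l m n + Dl l (m - 1) (n - 1) + Dl (l - 1) m (n - 1) + Dl (l - 1) (m - 1) n =
    4 * (l * (l - 1) + m * (m - 1) + n * (n - 1)) := by
  unfold Dl E
  rcases Int.emod_two_eq l with hl | hl <;> rcases Int.emod_two_eq m with hm | hm <;>
    rcases Int.emod_two_eq n with hn | hn <;> split_ifs <;>
    first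
    | (exfalso; omega)
    | (push_cast; ring_nf; done)
    | (push_cast; ring_nf; omega)

end Pool.Agent.Helper28.EF
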