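import Pool.Agent.Helper28.EF.Defs

set_option autoImplicit false

open Polynomial

/-!
# EF-09: the base state `(2, 0, 0)` for the constants `-6, 1, 2, 3`

`A = 6 - 4 X`, `B = X + 1`, `p1 = 1, p2 = 1, p3 = 8 - 2X, p4 = 9 - X, q1 = -10, q2 = 7 - 3X, q3 = 1, q4 = 1`.
`A - 6B = -10 X`, `A + B = 7 - 3X`, `A + 2B = 8 - 2X`, `A + 3B = 9 - X`;
`(8 - 2X)(9 - X) - 10 (7 - 3X) = 2 (X+1)^2`; `A + 4 B = 10`, so `A, B` are coprime.
`Fam = 6 - 4 Pi + t (Pi + 1) = (t - 4) Pi + t + 6 = (t + 6) ((t-1)(t-2)(t-3)(t-4) + 1) = (t+6) (t^2-5t+5)^2`, the class is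
`c1 = -6` (`E 2 0 0 = 1`, the other exponents are 0), `k = 1`, `Y = X^2 - 5X + 5`. `tau = 4`.
Degrees: `Dl 1 (-1) (-1) = 0`, `Dl 1 0 0 = 0`, `Dl 2 (-1) 0 = 4`, `Dl 2 0 (-1) = 4`, `Dl 2 0 0 = 0`,
`Dl 2 (-1) (-1) = 4`, `Dl 1 0 (-1) = 0`, `Dl 1 (-1) 0 = 0`: all by `decide`/`norm_num [Dl, E]`.
-/

namespace Pool.Agent.Helper28.EF

theorem base : Good (-6) 1 2 3 2 0 0 1 1 (C 8 - C 2 * X) (C 9 - X) (C (-10)) (C 7 - C 3 * X) 1 1
    (C 6 - C 4 * X) (X + C 1) := by
  have d3 : (C 8 - C 2 * X : ℚ[X]).natDegree = 1 := by compute_degree!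
  have d4 : (C 9 - X : ℚ[X]).natDegree = 1 := by compute_degree!
  have d2 : (C 7 - C 3 * X : ℚ[X]).natDegree = 1 := by compute_degree!
  have dB : (X + C 1 : ℚ[X]).natDegree = 1 := by compute_degree!
  have dA : (C 6 - C 4 * X : ℚ[X]).natDegree = 1 := by compute_degree!
  have ne_of {p : ℚ[X]} (h : p.natDegree = 1) : p ≠ 0 := by
    rintro rfl
    rw [natDegree_zero] at h
    exact zero_ne_one h
  refine
    { st :=
        { he := by decide
          h1 := ?_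
          h2 := ?_
          h3 := ?_
          h4 := ?_
          hs := ?_
          cop := ?_ }
      np1 := one_ne_zero
      np2 := one_ne_zero
      np3 := ne_of d3
      np4 := ne_of d4
      nq1 := by rw [Ne, C_eq_zero]; norm_num
      nq2 := ne_of d2
      nq3 := one_ne_zero
      nq4 := one_ne_zero
      nB := ne_of dB
      dp1 := ?_
      dp2 := ?_
      dp3 := ?_
      dp4 := ?_
      dq1 := ?_
      dq2 := ?_
      dq3 := ?_
      dq4 := ?_
      dB := ?_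
      dA := by rw [dA, dB]
      lA := ?_
      sq := ?_ }
  · have e : E 2 0 0 = 1 := by decide
    rw [e]
    simp only [map_neg, map_one, pow_one]
    rw [show (C 10 : ℚ[X]) = 10 from rfl, show (C 6 : ℚ[X]) = 6 from rfl,
      show (C 4 : ℚ[X]) = 4 from rfl]
    ring
  · have e : E (2 - 1) 0 0 = 0 := by decide
    rw [e]
    simp only [map_one, pow_zero]
    rw [show (C 7 : ℚ[X]) = 7 from rfl, show (C 6 : ℚ[X]) = 6 from rfl,
      show (C 4 : ℚ[X]) = 4 from rfl, show (C 3 : ℚ[X]) = 3 from rfl]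
    ring
  · have e : E 2 (0 - 1) 0 = 0 := by decide
    rw [e]
    simp only [map_one, pow_zero]
    rw [show (C 8 : ℚ[X]) = 8 from rfl, show (C 6 : ℚ[X]) = 6 from rfl,
      show (C 4 : ℚ[X]) = 4 from rfl, show (C 2 : ℚ[X]) = 2 from rfl]
    ring
  · have e : E 2 0 (0 - 1) = 0 := by decide
    rw [e]
    simp only [map_one, pow_zero]
    rw [show (C 9 : ℚ[X]) = 9 from rfl, show (C 6 : ℚ[X]) = 6 from rfl,
      show (C 4 : ℚ[X]) = 4 from rfl, show (C 3 : ℚ[X]) = 3 from rfl]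
    ring
  · simp only [map_neg, map_one]
    rw [show (C 9 : ℚ[X]) = 9 from rfl, show (C 8 : ℚ[X]) = 8 from rfl,
      show (C 7 : ℚ[X]) = 7 from rfl, show (C 3 : ℚ[X]) = 3 from rfl,
      show (C 2 : ℚ[X]) = 2 from rfl, show (C 10 : ℚ[X]) = 10 from rfl]
    ring
  · refine ⟨C (1 / 10), C (4 / 10), ?_⟩
    have h10 : (C (1 / 10 : ℚ) : ℚ[X]) * 10 = 1 := by
      rw [show (10 : ℚ[X]) = C 10 from rfl, ← C_mul]
      norm_num
    have h4 : (C (4 / 10 : ℚ) : ℚ[X]) = C (1 / 10 : ℚ) * 4 := by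
      rw [show (4 : ℚ[X]) = C 4 from rfl, ← C_mul]
      norm_num
    rw [h4, map_one, show (C 6 : ℚ[X]) = 6 from rfl, show (C 4 : ℚ[X]) = 4 from rfl]
    linear_combination h10
  · rw [natDegree_one]; decide
  · rw [natDegree_one]; decide
  · rw [d3]; decide
  · rw [d4]; decide
  · rw [natDegree_C]; decide
  · rw [d2]; decide
  · rw [natDegree_one]; decide
  · rw [natDegree_one]; decide
  · rw [dB]; norm_num
  · rw [dB]
    have h1 : (X + C 1 : ℚ[X]).leadingCoeff = 1 := leadingCoeff_X_add_C 1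
    rw [h1]
    have h2 : (C 6 - C 4 * X : ℚ[X]).coeff 1 = -4 := by
      rw [coeff_sub, coeff_C_mul, coeff_X_one, coeff_C_of_ne_zero one_ne_zero]
      norm_num
    rw [h2]
    unfold tau
    norm_num
  · refine ⟨1, X ^ 2 - C 5 * X + C 5, one_ne_zero, ?_, ?_⟩
    · have h : (X ^ 2 - C 5 * X + C 5 : ℚ[X]).natDegree = 2 := by compute_degree!
      intro h0
      rw [h0, natDegree_zero] at h
      exact absurd h (by norm_num)
    · have e1 : cls (-6) 1 2 3 (E 2 0 0) (E (2 - 1) 0 0) (E 2 (0 - 1) 0) (E 2 0 (0 - 1)) = -6 := by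
        have a1 : E 2 0 0 = 1 := by decide
        have a2 : E (2 - 1) 0 0 = 0 := by decide
        have a3 : E 2 (0 - 1) 0 = 0 := by decide
        have a4 : E 2 0 (0 - 1) = 0 := by decide
        rw [a1, a2, a3, a4]
        unfold cls
        norm_num
      rw [e1]
      unfold Fam Qt
      simp only [sub_comp, add_comp, mul_comp, C_comp, X_comp, one_comp, map_neg, map_one]
      rw [show (C 6 : ℚ[X]) = 6 from rfl, show (C 5 : ℚ[X]) = 5 from rfl,
        show (C 4 : ℚ[X]) = 4 from rfl, show (C 3 : ℚ[X]) = 3 from rfl,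
        show (C 2 : ℚ[X]) = 2 from rfl]
      ring

end Pool.Agent.Helper28.EF
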