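import Mathlib

set_option autoImplicit false

/-!
# TS-2: Dirichlet's theorem and reciprocity

Proof. `m` is odd. `(m-1)/2` is coprime to `m`, so by the Chinese remainder theorem there is a residue `r` mod `4m`, coprime to
`4m`, with `r = (m-1)/2 mod m` and `r = 1 mod 4`; Dirichlet (`Nat.forall_exists_prime_gt_and_eq_mod`) gives a prime `q > m`
with `q = r mod 4m`. Then `2q + 1 = 0 mod m`. Jacobi symbols: `J(-2q | m) = J(1 | m) = 1` and `J(-2 | m) = 1` for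
`m = 3 mod 8`, so `J(q | m) = 1`; by quadratic reciprocity (`q = 1 mod 4`) `J(m | q) = 1`, and `J(-1 | q) = 1`, so
`J(-m | q) = 1`, so `-m` is a square mod the prime `q` (`q ∤ m`). Let `b0^2 = -m mod q` and take `b ≡ b0 mod q` odd
(`b0` or `b0 + q`). Then `b^2 + m = 1 + 3 = 0 mod 4` and `= 0 mod q`, so `4 q | b^2 + m`.
-/

namespace Pool.Agent.Helper28.EF

theorem choose_q (m : ℕ) (hm : m % 8 = 3) :
    ∃ q : ℕ, q.Prime ∧ q % 4 = 1 ∧ m ∣ 2 * q + 1 ∧ ∃ b h : ℤ, b ^ 2 + (m : ℤ) = 4 * q * h := by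
  have hmodd : Odd m := Nat.odd_iff.mpr (by omega)
  obtain ⟨a, ha⟩ : ∃ a, m = 2 * a + 1 := ⟨m / 2, by omega⟩
  have hm4 : Nat.Coprime m 4 := by
    have h1 : Nat.Coprime m 2 := (Nat.coprime_two_right).mpr hmodd
    exact Nat.Coprime.pow_right 2 h1
  obtain ⟨r, hr1, hr2⟩ := Nat.chineseRemainder hm4 a 1
  have ham : Nat.Coprime a m := by
    rw [ha, mul_comm]
    simp
  have hrm : Nat.Coprime r m := by
    have h1 := Nat.ModEq.gcd_eq hr1
    unfold Nat.Coprime at ham ⊢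
    rw [h1, ham]
  have hr4 : Nat.Coprime r 4 := by
    have h1 := Nat.ModEq.gcd_eq hr2
    unfold Nat.Coprime
    rw [h1]
    norm_num
  have hr : Nat.Coprime r (m * 4) := Nat.Coprime.mul_right hrm hr4
  obtain ⟨q, hqgt, hqp, hq⟩ := Nat.forall_exists_prime_gt_and_modEq m (q := m * 4) (a := r)
    (by omega) hr
  have hqm : q ≡ a [MOD m] := (Nat.ModEq.of_mul_right 4 hq).trans hr1
  have hq4 : q % 4 = 1 := by
    have h1 : q ≡ 1 [MOD 4] := (Nat.ModEq.of_mul_left m hq).trans hr2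
    exact h1
  have hdvd : m ∣ 2 * q + 1 := by
    have h1 : 2 * q + 1 ≡ 2 * a + 1 [MOD m] := Nat.ModEq.add_right 1 (Nat.ModEq.mul_left 2 hqm)
    rw [← ha] at h1
    exact (Nat.modEq_zero_iff_dvd).mp (h1.trans (Nat.modEq_zero_iff_dvd.mpr dvd_rfl))
  haveI : Fact q.Prime := ⟨hqp⟩
  have hqodd : Odd q := Nat.odd_iff.mpr (by omega)
  have e1 : jacobiSym (-2) m = 1 := by
    rw [jacobiSym.at_neg_two hmodd]
    have h1 : ((m : ℕ) : ZMod 8) = 3 := by
      have h2 : ((m : ℕ) : ZMod 8) = ((3 : ℕ) : ZMod 8) := (ZMod.natCast_eq_natCast_iff' m 3 8).mpr hm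
      rw [h2]
      rfl
    rw [h1]
    decide
  have e2 : jacobiSym (-2 * (q : ℤ)) m = 1 := by
    rw [← jacobiSym.one_left m]
    apply jacobiSym.mod_left'
    apply Int.ModEq.symm
    rw [Int.modEq_iff_dvd]
    obtain ⟨t, ht⟩ := hdvd
    refine ⟨-t, ?_⟩
    have h3 : (2 * (q : ℤ) + 1) = m * t := by exact_mod_cast ht
    linear_combination -h3
  have e3 : jacobiSym (q : ℤ) m = 1 := by
    rw [jacobiSym.mul_left, e1, one_mul] at e2
    exact e2
  have e4 : jacobiSym (m : ℤ) q = 1 := by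
    rw [jacobiSym.quadratic_reciprocity_one_mod_four' hmodd hq4, e3]
  have e5 : jacobiSym (-(m : ℤ)) q = 1 := by
    rw [jacobiSym.neg _ hqodd, e4, mul_one]
    exact ZMod.χ₄_nat_one_mod_four hq4
  obtain ⟨y, hy⟩ := ZMod.isSquare_of_jacobiSym_eq_one e5
  have hb0 : (q : ℤ) ∣ (y.val : ℤ) ^ 2 + m := by
    rw [← ZMod.intCast_zmod_eq_zero_iff_dvd]
    push_cast
    rw [ZMod.natCast_zmod_val]
    have h1 : -((m : ℕ) : ZMod q) = y * y := by
      rw [← hy]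
      push_cast
      rfl
    rw [sq, ← h1]
    ring
  obtain ⟨b, hbodd, hbq⟩ : ∃ b : ℤ, b % 2 = 1 ∧ (q : ℤ) ∣ b ^ 2 + m := by
    rcases Int.emod_two_eq_zero_or_one (y.val : ℤ) with h | h
    · refine ⟨(y.val : ℤ) + q, ?_, ?_⟩
      · have h1 : (q : ℤ) % 2 = 1 := by
          have := Nat.odd_iff.mp hqodd
          omega
        omega
      · have h1 : ((y.val : ℤ) + q) ^ 2 + m = ((y.val : ℤ) ^ 2 + m) + q * (2 * y.val + q) := by
          ring
        rw [h1]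
        exact dvd_add hb0 (dvd_mul_right _ _)
    · exact ⟨_, h, hb0⟩
  have h4 : (4 : ℤ) ∣ b ^ 2 + m := by
    obtain ⟨c, hc⟩ : ∃ c : ℤ, b = 2 * c + 1 := ⟨b / 2, by omega⟩
    obtain ⟨d, hd⟩ : ∃ d : ℤ, (m : ℤ) = 4 * d + 3 := ⟨(m : ℤ) / 4, by omega⟩
    refine ⟨c ^ 2 + c + d + 1, ?_⟩
    rw [hc, hd]
    ring
  have hcop : IsCoprime (4 : ℤ) (q : ℤ) := by
    have h1 : Nat.Coprime 4 q := by
      have h2 : Nat.Coprime 2 q := (Nat.coprime_two_left).mpr hqodd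
      exact Nat.Coprime.pow_left 2 h2
    exact_mod_cast Nat.isCoprime_iff_coprime.mpr h1
  obtain ⟨h, hh⟩ := hcop.mul_dvd h4 hbq
  exact ⟨q, hqp, hq4, hdvd, b, h, hh⟩

end Pool.Agent.Helper28.EF
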