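import Mathlib

set_option autoImplicit false

open Polynomial

/-!
# Project EF: definitions

Family of pairs (A_n, B_n) of rational polynomials, n = (l, m, n) in Z^3, such that
A_n(Pi(t)) + t B_n(Pi(t)) = k (t - c) Y(t)^2, Pi(t) = (t-c1)(t-c2)(t-c3)(t-c4), and
deg B_n = (l(l-1) + m(m-1) + n(n-1))/2 >= deg A_n.
-/

namespace Pool.Agent.Helper28.EF

/-- 1 if the three integers have the same parity, 0 otherwise. -/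
def E (l m n : ℤ) : ℕ := if l % 2 = m % 2 ∧ m % 2 = n % 2 then 1 else 0

/-- Four times the degree of the theta polynomial at `(l, m, n)`. -/
def Dl (l m n : ℤ) : ℤ :=
  l ^ 2 + m ^ 2 + n ^ 2 - 4 + 2 * (1 - (E l m n : ℤ)) + (l + m + n) % 2

/-- Genericity of the four constants. -/
structure Gen (c1 c2 c3 c4 : ℚ) : Prop where
  h12 : c1 ≠ c2
  h13 : c1 ≠ c3
  h14 : c1 ≠ c4
  h23 : c2 ≠ c3
  h24 : c2 ≠ c4
  h34 : c3 ≠ c4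
  s2 : c1 + c2 ≠ c3 + c4
  s3 : c1 + c3 ≠ c2 + c4
  s4 : c1 + c4 ≠ c2 + c3

/-- A state: eight polynomials `p1 .. q4` and the pair `(A, B)`. -/
structure St (c1 c2 c3 c4 : ℚ) (e1 e2 e3 e4 : ℕ)
    (p1 p2 p3 p4 q1 q2 q3 q4 A B : ℚ[X]) : Prop where
  he : e1 + e2 + e3 + e4 = 1
  h1 : A + C c1 * B = X ^ e1 * p1 * q1
  h2 : A + C c2 * B = X ^ e2 * p2 * q2
  h3 : A + C c3 * B = X ^ e3 * p3 * q3
  h4 : A + C c4 * B = X ^ e4 * p4 * q4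
  hs : p1 * p2 * p3 * p4 + q1 * q2 * q3 * q4 = 2 * B ^ 2
  cop : IsCoprime A B

/-- The quartic `Pi`. -/
noncomputable def Qt (c1 c2 c3 c4 : ℚ) : ℚ[X] :=
  (X - C c1) * (X - C c2) * (X - C c3) * (X - C c4)

/-- The polynomial `A(Pi(t)) + t B(Pi(t))`. -/
noncomputable def Fam (c1 c2 c3 c4 : ℚ) (A B : ℚ[X]) : ℚ[X] :=
  A.comp (Qt c1 c2 c3 c4) + X * B.comp (Qt c1 c2 c3 c4)

/-- `F = k (t - c) Y^2`. -/
def Sq (c : ℚ) (F : ℚ[X]) : Prop :=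
  ∃ (k : ℚ) (Y : ℚ[X]), k ≠ 0 ∧ Y ≠ 0 ∧ F = C k * (X - C c) * Y ^ 2

/-- The class constant. -/
def cls (c1 c2 c3 c4 : ℚ) (e1 e2 e3 e4 : ℕ) : ℚ := e1 * c1 + e2 * c2 + e3 * c3 + e4 * c4

/-- The value of `T = - A / B` at infinity. -/
def tau (c1 c2 c3 c4 : ℚ) (l m n : ℤ) : ℚ :=
  if (l + m + n) % 2 = 0 then c1 - (c1 + c2) * l - (c1 + c3) * m - (c1 + c4) * n
  else -(c1 - (c1 + c2) * l - (c1 + c3) * m - (c1 + c4) * n)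

/-- The full inductive package at the lattice point `(l, m, n)`. -/
structure Good (c1 c2 c3 c4 : ℚ) (l m n : ℤ)
    (p1 p2 p3 p4 q1 q2 q3 q4 A B : ℚ[X]) : Prop where
  st : St c1 c2 c3 c4 (E l m n) (E (l - 1) m n) (E l (m - 1) n) (E l m (n - 1))
    p1 p2 p3 p4 q1 q2 q3 q4 A B
  np1 : p1 ≠ 0
  np2 : p2 ≠ 0
  np3 : p3 ≠ 0
  np4 : p4 ≠ 0
  nq1 : q1 ≠ 0
  nq2 : q2 ≠ 0
  nq3 : q3 ≠ 0
  nq4 : q4 ≠ 0
  nB : B ≠ 0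
  dp1 : 4 * (p1.natDegree : ℤ) = Dl (l - 1) (m - 1) (n - 1)
  dp2 : 4 * (p2.natDegree : ℤ) = Dl (l - 1) m n
  dp3 : 4 * (p3.natDegree : ℤ) = Dl l (m - 1) n
  dp4 : 4 * (p4.natDegree : ℤ) = Dl l m (n - 1)
  dq1 : 4 * (q1.natDegree : ℤ) = Dl l m n
  dq2 : 4 * (q2.natDegree : ℤ) = Dl l (m - 1) (n - 1)
  dq3 : 4 * (q3.natDegree : ℤ) = Dl (l - 1) m (n - 1)
  dq4 : 4 * (q4.natDegree : ℤ) = Dl (l - 1) (m - 1) n
  dB : 2 * (B.natDegree : ℤ) = l * (l - 1) + m * (m - 1) + n * (n - 1)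
  dA : A.natDegree ≤ B.natDegree
  lA : A.coeff B.natDegree = - tau c1 c2 c3 c4 l m n * B.leadingCoeff
  sq : Sq (cls c1 c2 c3 c4 (E l m n) (E (l - 1) m n) (E l (m - 1) n) (E l m (n - 1)))
    (Fam c1 c2 c3 c4 A B)

end Pool.Agent.Helper28.EF
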