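import Mathlib

set_option autoImplicit false

/-!
# TS-3: the value of the binary form is twice ... a sum of two squares

Put `w = q x^2 + b x y + h y^2`, `L = 2 q x + b y`; `4 q w = L^2 + m y^2`, so `w ≥ 0`, and `R^2 + 2 w = m`.
Claim: `2 w` is a sum of two squares. By `Nat.eq_sq_add_sq_iff` it is enough to show that for every prime `p = 3 mod 4` the
`p`-adic valuation of `2w` is even (`w = 0` is trivial: `2w = 0^2 + 0^2`). Let `p = 3 mod 4` with odd valuation, so `p` is odd,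
`p ≠ q` (as `q = 1 mod 4`), `p | w`.
Case `p ∤ m`. From `R^2 + 2w = m`: `m = R^2 mod p`, a nonzero square. The valuation of `L^2 + m y^2 = 4 q w` at `p` is odd;
dividing `L, y` by common powers of `p` we get `L'^2 + m y'^2 = 0 mod p` with not both `L', y'` divisible by `p`, hence
neither (as `p ∤ m`), so `-m` is a square mod `p`; so `-1` is a square mod `p`, contradiction with `p = 3 mod 4`.
(Equivalently: `L^2 + m y^2 = L^2 + R^2 y^2 mod ...`; it is easiest to do the descent if `p | L^2 + m y^2` and `-m` is not a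
square mod `p`, then `p | L` and `p | y`, by strong induction on the size.)
Case `p | m`. Then `p | R`, so `p^2 | R^2`, and `m` is squarefree, so `p ∥ m`, `p ∥ 2w`. `p | L` from `4 q w = L^2 + m y^2`, so
`p^2 | L^2`. Write `m = p m'`, `w = p w'`: `2 w' = m' mod p` and `4 q w' = m' y^2 mod p`, so `2 q m' = m' y^2 mod p` and
`p ∤ m'`, so `y^2 = 2 q = -1 mod p` because `m | 2q + 1`. Contradiction with `p = 3 mod 4`.
-/

namespace Pool.Agent.Helper28.EF

theorem dvd_of_dvd_sum_sq {p : ℕ} [Fact p.Prime] (h3 : p % 4 = 3) {a b : ℤ}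
    (h : (p : ℤ) ∣ a ^ 2 + b ^ 2) : (p : ℤ) ∣ a ∧ (p : ℤ) ∣ b := by
  have h0 : ((a : ZMod p)) ^ 2 + (b : ZMod p) ^ 2 = 0 := by
    have := (ZMod.intCast_zmod_eq_zero_iff_dvd (a ^ 2 + b ^ 2) p).2 h
    push_cast at this
    exact this
  have hb : (b : ZMod p) = 0 := by
    by_contra hb
    exact ZMod.mod_four_ne_three_of_sq_eq_neg_sq' hb (eq_neg_of_add_eq_zero_left h0) h3
  have ha : (a : ZMod p) = 0 := by
    rw [hb] at h0
    have : (a : ZMod p) ^ 2 = 0 := by simpa using h0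
    exact pow_eq_zero_iff (two_ne_zero) |>.1 this
  exact ⟨(ZMod.intCast_zmod_eq_zero_iff_dvd a p).1 ha, (ZMod.intCast_zmod_eq_zero_iff_dvd b p).1 hb⟩

theorem even_val {p : ℕ} [Fact p.Prime] (m : ℕ)
    (H : ∀ L y : ℤ, (p : ℤ) ∣ L ^ 2 + m * y ^ 2 → (p : ℤ) ∣ L ∧ (p : ℤ) ∣ y) :
    ∀ (N : ℕ) (L y : ℤ), (L ^ 2 + m * y ^ 2).natAbs ≤ N → L ^ 2 + m * y ^ 2 ≠ 0 →
      Even (padicValInt p (L ^ 2 + m * y ^ 2)) := by
  intro N
  induction N using Nat.strong_induction_on with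
  | _ N ih =>
    intro L y hN h0
    by_cases hd : (p : ℤ) ∣ L ^ 2 + m * y ^ 2
    · obtain ⟨⟨L', rfl⟩, ⟨y', rfl⟩⟩ := H L y hd
      have e : ((p : ℤ) * L') ^ 2 + m * (p * y') ^ 2 = (p : ℤ) ^ 2 * (L' ^ 2 + m * y' ^ 2) := by ring
      rw [e] at h0 hN ⊢
      have h1 : L' ^ 2 + (m : ℤ) * y' ^ 2 ≠ 0 := right_ne_zero_of_mul h0
      have hp2 : 2 ≤ p := (Fact.out : p.Prime).two_le
      have h2 : (L' ^ 2 + (m : ℤ) * y' ^ 2).natAbs < N := by
        rw [Int.natAbs_mul] at hN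
        have h3 : ((p : ℤ) ^ 2).natAbs = p ^ 2 := by
          rw [Int.natAbs_pow, Int.natAbs_natCast]
        rw [h3] at hN
        have h4 : 0 < (L' ^ 2 + (m : ℤ) * y' ^ 2).natAbs := Int.natAbs_pos.2 h1
        have h5 : 2 ≤ p ^ 2 := by nlinarith
        have h6 : 2 * (L' ^ 2 + (m : ℤ) * y' ^ 2).natAbs ≤ p ^ 2 * (L' ^ 2 + (m : ℤ) * y' ^ 2).natAbs :=
          Nat.mul_le_mul_right _ h5
        omega
      have h5 := ih _ h2 L' y' le_rfl h1
      have hp0 : (p : ℤ) ^ 2 ≠ 0 := by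
        have : p ≠ 0 := (Fact.out : p.Prime).ne_zero
        positivity
      rw [padicValInt.mul hp0 h1]
      have h6 : padicValInt p ((p : ℤ) ^ 2) = 2 := by
        have : ((p : ℤ) ^ 2) = ((p ^ 2 : ℕ) : ℤ) := by push_cast; ring
        rw [this, padicValInt.of_nat]
        exact padicValNat.prime_pow 2
      rw [h6]
      exact Even.add (by decide) h5
    · rw [padicValInt.eq_zero_of_not_dvd hd]
      exact Even.zero

theorem two_sq (m q : ℕ) (hm : Squarefree m) (hm2 : m % 2 = 1) (hq : q.Prime) (hq4 : q % 4 = 1) (hmq : m ∣ 2 * q + 1)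
    (b h : ℤ) (hb : b ^ 2 + (m : ℤ) = 4 * q * h) (x y R : ℤ)
    (hR : R ^ 2 + 2 * (q * x ^ 2 + b * x * y + h * y ^ 2) = m) :
    ∃ s t : ℤ, 2 * (q * x ^ 2 + b * x * y + h * y ^ 2) = s ^ 2 + t ^ 2 := by
  obtain ⟨w, hw⟩ : ∃ w : ℤ, w = q * x ^ 2 + b * x * y + h * y ^ 2 := ⟨_, rfl⟩
  rw [← hw] at hR ⊢
  have e4 : 4 * (q : ℤ) * w = (2 * q * x + b * y) ^ 2 + m * y ^ 2 := by
    rw [hw]
    linear_combination (-y ^ 2) * hb
  have hq0 : (0 : ℤ) < q := by exact_mod_cast hq.pos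
  have hm0 : (0 : ℤ) < m := by
    have : 0 < m := by omega
    exact_mod_cast this
  have hw0 : 0 ≤ w := by
    by_contra hneg
    push Not at hneg
    have h1 : 0 ≤ (2 * q * x + b * y) ^ 2 + (m : ℤ) * y ^ 2 := by positivity
    nlinarith
  obtain ⟨n, hn⟩ := Int.eq_ofNat_of_zero_le hw0
  rcases Nat.eq_zero_or_pos n with hn0 | hn0
  · exact ⟨0, 0, by rw [hn, hn0]; simp⟩
  have key : ∃ s t : ℕ, 2 * n = s ^ 2 + t ^ 2 := by
    rw [Nat.eq_sq_add_sq_iff]
    intro p hp hp3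
    have hpp : p.Prime := Nat.prime_of_mem_primeFactors hp
    have hpd : p ∣ 2 * n := Nat.dvd_of_mem_primeFactors hp
    have : Fact p.Prime := ⟨hpp⟩
    have hp2 : p ≠ 2 := by rintro rfl; omega
    have hpq : p ≠ q := by rintro rfl; omega
    have hpdn : p ∣ n := by
      rcases (Nat.Prime.dvd_mul hpp).1 hpd with h1 | h1
      · exact absurd ((Nat.prime_dvd_prime_iff_eq hpp Nat.prime_two).1 h1) hp2
      · exact h1
    have hpw : (p : ℤ) ∣ w := by rw [hn]; exact_mod_cast hpdn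
    have hpZ : Prime (p : ℤ) := Nat.prime_iff_prime_int.1 hpp
    by_cases hpm : p ∣ m
    · exfalso
      have hpmZ : (p : ℤ) ∣ m := by exact_mod_cast hpm
      -- p | R
      have hR2 : (p : ℤ) ∣ R ^ 2 := by
        have : R ^ 2 = m - 2 * w := by linarith
        rw [this]
        exact dvd_sub hpmZ (Dvd.dvd.mul_left hpw 2)
      obtain ⟨R', rfl⟩ := hpZ.dvd_of_dvd_pow hR2
      have hL2 : (p : ℤ) ∣ (2 * q * x + b * y) ^ 2 := by
        have : (2 * q * x + b * y) ^ 2 = 4 * (q : ℤ) * w - m * y ^ 2 := by linarith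
        rw [this]
        exact dvd_sub (Dvd.dvd.mul_left hpw _) (Dvd.dvd.mul_right hpmZ _)
      obtain ⟨L', hL'⟩ := hpZ.dvd_of_dvd_pow hL2
      obtain ⟨m', hm'⟩ := hpm
      obtain ⟨w', hw'⟩ := hpw
      have hm'p : ¬ (p : ℤ) ∣ m' := by
        intro h1
        have h2 : p ∣ m' := by exact_mod_cast h1
        have h3 : p * p ∣ m := by rw [hm']; exact mul_dvd_mul_left p h2
        have h4 := hm p h3
        exact hpp.one_lt.ne' (Nat.isUnit_iff.1 h4)
      have hp0 : (p : ℤ) ≠ 0 := by exact_mod_cast hpp.ne_zero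
      have hmZ : (m : ℤ) = p * m' := by exact_mod_cast hm'
      have e1 : p * R' ^ 2 + 2 * w' = m' := by
        have : (p : ℤ) * (p * R' ^ 2 + 2 * w') = p * m' := by
          rw [hmZ, hw'] at hR
          linear_combination hR
        exact mul_left_cancel₀ hp0 this
      have e2 : 4 * (q : ℤ) * w' = p * L' ^ 2 + m' * y ^ 2 := by
        have : (p : ℤ) * (4 * (q : ℤ) * w') = p * (p * L' ^ 2 + m' * y ^ 2) := by
          rw [hmZ, hw', hL'] at e4
          linear_combination e4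
        exact mul_left_cancel₀ hp0 this
      have hq1 : (p : ℤ) ∣ 2 * q + 1 := by
        have : p ∣ 2 * q + 1 := (Dvd.intro m' hm'.symm).trans hmq
        exact_mod_cast this
      obtain ⟨k, hk⟩ := hq1
      have e3 : (p : ℤ) ∣ m' * (y ^ 2 + 1 ^ 2) := by
        refine ⟨2 * q * R' ^ 2 * (-1) + k * m' - L' ^ 2 , ?_⟩
        linear_combination (-1 : ℤ) * e2 + (2 * q : ℤ) * e1 + (m' : ℤ) * hk
      rcases hpZ.dvd_or_dvd e3 with h1 | h1
      · exact hm'p h1
      · have h2 := (dvd_of_dvd_sum_sq hp3 h1).2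
        have h3 : p ∣ 1 := by exact_mod_cast h2
        exact hpp.one_lt.ne' (Nat.dvd_one.1 h3)
    · have hpmZ : ¬ (p : ℤ) ∣ m := fun h1 => hpm (by exact_mod_cast h1)
      have hpR : ¬ (p : ℤ) ∣ R := by
        intro h1
        apply hpmZ
        rw [← hR]
        exact dvd_add (dvd_pow h1 two_ne_zero) (Dvd.dvd.mul_left hpw 2)
      have H : ∀ L y : ℤ, (p : ℤ) ∣ L ^ 2 + m * y ^ 2 → (p : ℤ) ∣ L ∧ (p : ℤ) ∣ y := by
        intro L z hz
        have h1 : (p : ℤ) ∣ L ^ 2 + (R * z) ^ 2 := by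
          have : L ^ 2 + (R * z) ^ 2 = (L ^ 2 + m * z ^ 2) - 2 * w * z ^ 2 := by
            rw [← hR]; ring
          rw [this]
          exact dvd_sub hz (Dvd.dvd.mul_right (Dvd.dvd.mul_left hpw 2) _)
        obtain ⟨h2, h3⟩ := dvd_of_dvd_sum_sq hp3 h1
        exact ⟨h2, (hpZ.dvd_or_dvd h3).resolve_left hpR⟩
      have h4 : (2 * q * x + b * y) ^ 2 + (m : ℤ) * y ^ 2 ≠ 0 := by
        rw [← e4, hn]
        have : (0 : ℤ) < n := by exact_mod_cast hn0
        positivity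
      have h5 := even_val m H _ (2 * q * x + b * y) y le_rfl h4
      rw [← e4, hn] at h5
      have h6 : 4 * (q : ℤ) * (n : ℤ) = ((2 * q * (2 * n) : ℕ) : ℤ) := by push_cast; ring
      rw [h6, padicValInt.of_nat] at h5
      rw [padicValNat.mul (by have := hq.pos; positivity) (by positivity)] at h5
      have h7 : padicValNat p (2 * q) = 0 := by
        apply padicValNat.eq_zero_of_not_dvd
        intro h8
        rcases (Nat.Prime.dvd_mul hpp).1 h8 with h9 | h9
        · exact hp2 ((Nat.prime_dvd_prime_iff_eq hpp Nat.prime_two).1 h9)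
        · exact hpq ((Nat.prime_dvd_prime_iff_eq hpp hq).1 h9)
      rw [h7, zero_add] at h5
      exact h5
  obtain ⟨s, t, hst⟩ := key
  exact ⟨s, t, by rw [hn]; exact_mod_cast hst⟩

end Pool.Agent.Helper28.EF
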