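import Pool.Agent.Helper28.EF.Mink
import Pool.Agent.Helper28.EF.Choose
import Pool.Agent.Helper28.EF.TwoSq

set_option autoImplicit false

/-!
# TS-4: three squares and three triangular numbers (Gauss)

Proof. Let first `m = 3 mod 8` be squarefree; take `q, b, h` from `choose_q` and `x, y, z` from `mink`;
`R = 2 q x + b y + m z`, `w = q x^2 + b x y + h y^2`. `4 q w = (2 q x + b y)^2 + m y^2 ≥ 0`, so `w ≥ 0`. Modulo `m`, with
`2 q = -1`: `-2 w = 4 q w = (2 q x + b y)^2 = R^2`, so `m | R^2 + 2 w`; `0 ≤ R^2 + 2 w < 2 m`. It is not 0: otherwise `w = 0`, so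
`y = 0`, `x = 0`, and `R = m z = 0`, so `z = 0`. Hence `R^2 + 2 w = m` and `two_sq` gives `m = R^2 + s^2 + t^2`.
For general `m = 3 mod 8` write `m = k^2 m0` with `m0` squarefree (`Nat.sq_mul_squarefree`); `k` is odd, so `m0 = 3 mod 8`.
A sum of three squares that is `3 mod 8` (even mod 4) has all three terms odd: squares are `0, 1, 4 mod 8`. With `m = 8 d + 3` and
`m = (2a+1)^2 + (2b+1)^2 + (2c+1)^2` (signs chosen so that `a, b, c ≥ 0`), `d = a(a+1)/2 + b(b+1)/2 + c(c+1)/2`; written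
without division. Order them so that `a` is the largest.
-/

namespace Pool.Agent.Helper28.EF

private theorem Eureka_sqf (m : ℕ) (hm : m % 8 = 3) (hsq : Squarefree m) :
    ∃ x y z : ℕ, m = x ^ 2 + y ^ 2 + z ^ 2 := by
  obtain ⟨q, hq, hq4, hmq, b, h, hb⟩ := choose_q m hm
  have hm0 : (0 : ℤ) < m := by exact_mod_cast (show 0 < m by omega)
  have hq0 : (0 : ℤ) < q := by exact_mod_cast hq.pos
  obtain ⟨x, y, z, hne, hlt⟩ := mink m q b h hm0 hq0 hb
  set w : ℤ := q * x ^ 2 + b * x * y + h * y ^ 2 with hw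
  set R : ℤ := 2 * q * x + b * y + m * z with hR
  have h1 : 4 * q * w = (2 * q * x + b * y) ^ 2 + m * y ^ 2 := by
    rw [hw]
    linear_combination (-y ^ 2) * hb
  have hw0 : 0 ≤ w := by
    by_contra hc
    push Not at hc
    have h2 : 4 * (q : ℤ) * w < 0 := by nlinarith
    nlinarith [sq_nonneg (2 * q * x + b * y), mul_nonneg hm0.le (sq_nonneg y)]
  obtain ⟨c, hc⟩ := hmq
  have hc' : 2 * (q : ℤ) + 1 = m * c := by exact_mod_cast hc
  have h3 : R ^ 2 + 2 * w = m * (z * (2 * (2 * q * x + b * y) + m * z) - y ^ 2 + 2 * w * c) := by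
    linear_combination (R + (2 * q * x + b * y + m * z)) * hR - h1 + 2 * w * hc'
  set k : ℤ := z * (2 * (2 * q * x + b * y) + m * z) - y ^ 2 + 2 * w * c with hk
  have hR2 : 0 ≤ R ^ 2 := sq_nonneg R
  have hk0 : 0 ≤ k := by
    by_contra hcon
    push Not at hcon
    nlinarith
  have hk2 : k < 2 := by
    by_contra hcon
    push Not at hcon
    nlinarith
  have hk01 : k = 0 ∨ k = 1 := by omega
  rcases hk01 with hk01 | hk01
  · exfalso
    apply hne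
    rw [hk01, mul_zero] at h3
    have hw1 : w = 0 := by linarith
    have hR1 : R ^ 2 = 0 := by linarith
    have hR3 : R = 0 := pow_eq_zero_iff (two_ne_zero) |>.1 hR1
    rw [hw1, mul_zero] at h1
    have h4 : (m : ℤ) * y ^ 2 = 0 := by
      nlinarith [sq_nonneg (2 * q * x + b * y), mul_nonneg hm0.le (sq_nonneg y)]
    have hy : y = 0 := by
      rcases mul_eq_zero.1 h4 with h5 | h5
      · exact absurd h5 hm0.ne'
      · exact pow_eq_zero_iff (two_ne_zero) |>.1 h5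
    have h6 : (2 * q * x + b * y) ^ 2 = 0 := by linarith
    have h7 : 2 * q * x + b * y = 0 := pow_eq_zero_iff (two_ne_zero) |>.1 h6
    have hx : x = 0 := by
      rw [hy, mul_zero, add_zero] at h7
      rcases mul_eq_zero.1 h7 with h8 | h8
      · exact absurd h8 (by positivity)
      · exact h8
    have hz : z = 0 := by
      rw [h7, zero_add, hR3] at hR
      rcases mul_eq_zero.1 hR.symm with h8 | h8
      · exact absurd h8 hm0.ne'
      · exact h8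
    exact ⟨hx, hy, hz⟩
  · rw [hk01, mul_one] at h3
    obtain ⟨s, t, hst⟩ := two_sq m q hsq (by omega) hq hq4 ⟨c, hc⟩ b h hb x y R h3
    refine ⟨R.natAbs, s.natAbs, t.natAbs, ?_⟩
    have h4 : (m : ℤ) = R ^ 2 + s ^ 2 + t ^ 2 := by
      rw [← h3, ← hw] at *
      linarith
    have h5 : ((R.natAbs ^ 2 + s.natAbs ^ 2 + t.natAbs ^ 2 : ℕ) : ℤ) = R ^ 2 + s ^ 2 + t ^ 2 := by
      push_cast
      simp only [sq_abs]
    exact_mod_cast h4.trans h5.symm

private theorem Eureka_odd (x y z : ℕ) (h : (x ^ 2 + y ^ 2 + z ^ 2) % 8 = 3) :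
    x % 2 = 1 ∧ y % 2 = 1 ∧ z % 2 = 1 := by
  have key : ∀ n : ℕ, (n % 2 = 0 ∧ (n ^ 2 % 8 = 0 ∨ n ^ 2 % 8 = 4)) ∨
      (n % 2 = 1 ∧ n ^ 2 % 8 = 1) := by
    intro n
    have h1 : n % 8 = 0 ∨ n % 8 = 1 ∨ n % 8 = 2 ∨ n % 8 = 3 ∨ n % 8 = 4 ∨ n % 8 = 5 ∨
        n % 8 = 6 ∨ n % 8 = 7 := by omega
    have h2 : n ^ 2 % 8 = (n % 8) ^ 2 % 8 := Nat.pow_mod n 2 8
    rcases h1 with h1 | h1 | h1 | h1 | h1 | h1 | h1 | h1 <;> rw [h1] at h2 <;> norm_num at h2 <;>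
      omega
  have hx := key x
  have hy := key y
  have hz := key z
  omega

theorem three_squares (m : ℕ) (hm : m % 8 = 3) : ∃ x y z : ℕ, m = x ^ 2 + y ^ 2 + z ^ 2 := by
  obtain ⟨a, k, hk, ha⟩ := Nat.sq_mul_squarefree m
  have h8 : a % 8 = 3 := by
    have h1 : k % 8 = 0 ∨ k % 8 = 1 ∨ k % 8 = 2 ∨ k % 8 = 3 ∨ k % 8 = 4 ∨ k % 8 = 5 ∨
        k % 8 = 6 ∨ k % 8 = 7 := by omega
    have h2 : k ^ 2 % 8 = (k % 8) ^ 2 % 8 := Nat.pow_mod k 2 8
    have h3 : k ^ 2 * a % 8 = (k ^ 2 % 8) * (a % 8) % 8 := Nat.mul_mod _ _ _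
    rw [hk, hm] at h3
    rcases h1 with h1 | h1 | h1 | h1 | h1 | h1 | h1 | h1 <;> rw [h1] at h2 <;> norm_num at h2 <;>
      rw [h2] at h3 <;> omega
  obtain ⟨x, y, z, hxyz⟩ := Eureka_sqf a h8 ha
  refine ⟨k * x, k * y, k * z, ?_⟩
  rw [← hk, hxyz]
  ring

theorem three_triangular (d : ℕ) : ∃ a b c : ℕ, b ≤ a ∧ c ≤ a ∧
    2 * d = a * (a + 1) + b * (b + 1) + c * (c + 1) := by
  obtain ⟨x, y, z, hxyz⟩ := three_squares (8 * d + 3) (by omega)
  obtain ⟨hx, hy, hz⟩ := Eureka_odd x y z (by rw [← hxyz]; omega)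
  obtain ⟨a, rfl⟩ : ∃ a, x = 2 * a + 1 := ⟨x / 2, by omega⟩
  obtain ⟨b, rfl⟩ : ∃ b, y = 2 * b + 1 := ⟨y / 2, by omega⟩
  obtain ⟨c, rfl⟩ : ∃ c, z = 2 * c + 1 := ⟨z / 2, by omega⟩
  have h : 2 * d = a * (a + 1) + b * (b + 1) + c * (c + 1) := by nlinarith
  by_cases h1 : b ≤ a ∧ c ≤ a
  · exact ⟨a, b, c, h1.1, h1.2, h⟩
  by_cases h2 : a ≤ b ∧ c ≤ b
  · exact ⟨b, a, c, h2.1, h2.2, by rw [h]; ring⟩
  · refine ⟨c, a, b, by omega, by omega, by rw [h]; ring⟩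

end Pool.Agent.Helper28.EF
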