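import Pool.Agent.Helper28.EF.Path
import Pool.Agent.Helper28.EF.Eureka

set_option autoImplicit false

open Polynomial

/-!
# The families in every degree
-/

namespace Pool.Agent.Helper28.EF

theorem family (d : ℕ) (hd : 1 ≤ d) : ∃ (A B : ℚ[X]) (γ : ℤ), |γ| ≤ 6 ∧ IsCoprime A B ∧
    B.natDegree = d ∧ A.natDegree ≤ d ∧ Sq (γ : ℚ) (Fam (-6) 1 2 3 A B) := by
  obtain ⟨a, b, c, hba, hca, h⟩ := three_triangular d
  have ha : 1 ≤ a := by
    by_contra hcon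
    have h0 : a = 0 := by omega
    have hb0 : b = 0 := by omega
    have hc0 : c = 0 := by omega
    subst h0 hb0 hc0
    simp at h
    omega
  obtain ⟨p1, p2, p3, p4, q1, q2, q3, q4, A, B, H⟩ :=
    good_all ((a : ℤ) + 1) ((b : ℤ) + 1) ((c : ℤ) + 1) (by exact_mod_cast (by omega : 2 ≤ a + 1))
      (by positivity) (by positivity)
  have hdB : B.natDegree = d := by
    have h1 := H.dB
    have h2 : (2 * d : ℤ) = a * (a + 1) + b * (b + 1) + c * (c + 1) := by exact_mod_cast h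
    have h3 : 2 * (B.natDegree : ℤ) = 2 * d := by rw [h1, h2]; ring
    exact_mod_cast (mul_left_cancel₀ (by norm_num : (2 : ℤ) ≠ 0) h3)
  have hE := E_sum ((a : ℤ) + 1) ((b : ℤ) + 1) ((c : ℤ) + 1)
  have hsq := H.sq
  unfold cls at hsq
  refine ⟨A, B, (E ((a : ℤ) + 1) ((b : ℤ) + 1) ((c : ℤ) + 1) : ℤ) * (-6) +
    (E ((a : ℤ) + 1 - 1) ((b : ℤ) + 1) ((c : ℤ) + 1) : ℤ) * 1 +
    (E ((a : ℤ) + 1) ((b : ℤ) + 1 - 1) ((c : ℤ) + 1) : ℤ) * 2 +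
    (E ((a : ℤ) + 1) ((b : ℤ) + 1) ((c : ℤ) + 1 - 1) : ℤ) * 3, ?_, H.st.cop, hdB, hdB ▸ H.dA, ?_⟩
  · generalize E ((a : ℤ) + 1) ((b : ℤ) + 1) ((c : ℤ) + 1) = e1 at *
    generalize E ((a : ℤ) + 1 - 1) ((b : ℤ) + 1) ((c : ℤ) + 1) = e2 at *
    generalize E ((a : ℤ) + 1) ((b : ℤ) + 1 - 1) ((c : ℤ) + 1) = e3 at *
    generalize E ((a : ℤ) + 1) ((b : ℤ) + 1) ((c : ℤ) + 1 - 1) = e4 at *
    rw [abs_le]
    constructor <;> omega
  · convert hsq using 1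
    push_cast
    ring

end Pool.Agent.Helper28.EF
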