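import Pool.Agent.Helper28.EF.Family
import Pool.Agent.Helper12.HeightLB

set_option autoImplicit false

open Polynomial Pool.Agent.Helper12.HeightLB

/-!
# The exponent 4 in every degree
-/

namespace Pool.Agent.Helper28.EF

lemma int_norm (p : ℚ[X]) : ∃ L : ℤ, L ≠ 0 ∧ ∃ p0 : ℤ[X],
    p0.map (Int.castRingHom ℚ) = C (L : ℚ) * p := by
  obtain ⟨b, hb, h⟩ := IsLocalization.integerNormalization_spec (nonZeroDivisors ℤ) p
  refine ⟨b, nonZeroDivisors.ne_zero hb, IsLocalization.integerNormalization (nonZeroDivisors ℤ) p, ?_⟩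
  have h2 : algebraMap ℤ ℚ = Int.castRingHom ℚ := RingHom.ext_int _ _
  rw [← h2, h]
  rw [← Polynomial.smul_eq_C_mul]
  simp [zsmul_eq_mul, Polynomial.smul_eq_C_mul]

lemma coef_bound' (p : ℤ[X]) : ∃ B : ℕ, ∀ i, |p.coeff i| ≤ (B : ℤ) := by
  refine ⟨p.support.sup (fun i => (p.coeff i).natAbs), fun i => ?_⟩
  by_cases hi : i ∈ p.support
  · rw [Int.abs_eq_natAbs]
    exact_mod_cast Finset.le_sup (f := fun i => (p.coeff i).natAbs) hi
  · rw [Polynomial.notMem_support_iff.mp hi]; simp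

lemma avoid3 (γ κ : ℤ) (hκ : κ ≠ 0) (S : Set ℤ) (hS : S.Finite) (N : ℕ) :
    ∃ n : ℕ, N ≤ n ∧ 1 ≤ n ∧ (γ + κ * (n : ℤ) ^ 2) ∉ S := by
  by_contra hcon
  push Not at hcon
  have hinj : Set.InjOn (fun n : ℕ => (γ + κ * (n : ℤ) ^ 2)) (Set.Ici (max N 1)) := by
    intro a _ b _ h
    have h' : γ + κ * (a : ℤ) ^ 2 = γ + κ * (b : ℤ) ^ 2 := h
    have h2 : κ * (a : ℤ) ^ 2 = κ * (b : ℤ) ^ 2 := by linarith
    have h3 := mul_left_cancel₀ hκ h2
    have h4 : a ^ 2 = b ^ 2 := by exact_mod_cast h3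
    exact Nat.pow_left_injective (n := 2) (by norm_num) h4
  have hmaps : ∀ n ∈ Set.Ici (max N 1), (fun n : ℕ => (γ + κ * (n : ℤ) ^ 2)) n ∈ S := by
    intro n hn
    have hn' : max N 1 ≤ n := hn
    exact hcon n (le_trans (le_max_left _ _) hn') (le_trans (le_max_right _ _) hn')
  have := Set.Finite.of_injOn hmaps hinj hS
  exact (Set.Ici_infinite (max N 1)) this

lemma wronsk {A B : ℚ[X]} (hc : IsCoprime A B) (hB : 1 ≤ B.natDegree) :
    A * derivative B - derivative A * B ≠ 0 := by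
  intro h
  have h1 : B ∣ A * derivative B := ⟨derivative A, by linear_combination h⟩
  have h2 : B ∣ derivative B := hc.symm.dvd_of_dvd_mul_left h1
  have h3 : derivative B ≠ 0 := by
    intro h0
    have := derivative_eq_zero.mp h0
    omega
  have h4 := natDegree_le_of_dvd h2 h3
  have h5 := natDegree_derivative_lt (p := B) (by omega)
  omega

theorem main (d : ℕ) (hd : 3 ≤ d) (C₁ C₂ : ℝ) (hbound : Bound d C₁ C₂) : 4 ≤ C₁ := by
  obtain ⟨A, B, γ, hγ, hcop, hdB, hdA, k, Y, hk, hY, hF⟩ := family d (by omega)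
  obtain ⟨L1, hL1, A1, hA1⟩ := int_norm A
  obtain ⟨L2, hL2, B1, hB1⟩ := int_norm B
  obtain ⟨L, hLdef⟩ : ∃ L : ℤ, L = L1 * L2 := ⟨_, rfl⟩
  have hL : L ≠ 0 := by rw [hLdef]; exact mul_ne_zero hL1 hL2
  have hLq : (L : ℚ) ≠ 0 := by exact_mod_cast hL
  -- integral polynomials F0 = L^2 A, F1 = L^2 B
  obtain ⟨F0, hF0⟩ : ∃ F0 : ℤ[X], F0 = C (L * L2) * A1 := ⟨_, rfl⟩
  obtain ⟨F1, hF1⟩ : ∃ F1 : ℤ[X], F1 = C (L * L1) * B1 := ⟨_, rfl⟩
  have hF0m : F0.map (Int.castRingHom ℚ) = C ((L : ℚ) ^ 2) * A := by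
    rw [hF0, Polynomial.map_mul, hA1, map_C, ← mul_assoc, ← C_mul]
    congr 2
    simp only [hLdef, eq_intCast]
    push_cast
    ring
  have hF1m : F1.map (Int.castRingHom ℚ) = C ((L : ℚ) ^ 2) * B := by
    rw [hF1, Polynomial.map_mul, hB1, map_C, ← mul_assoc, ← C_mul]
    congr 2
    simp only [hLdef, eq_intCast]
    push_cast
    ring
  have hB0 : B ≠ 0 := by rintro rfl; simp at hdB; omega
  -- constants of the square class
  obtain ⟨κ, hκ⟩ : ∃ κ : ℤ, κ = k.num * k.den := ⟨_, rfl⟩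
  have hκ0 : κ ≠ 0 := by
    rw [hκ]
    exact mul_ne_zero (Rat.num_ne_zero.mpr hk) (by exact_mod_cast k.den_nz)
  have hkκ : k * (κ : ℚ) = (k.num : ℚ) ^ 2 := by
    rw [hκ]
    push_cast
    have h1 : k * (k.den : ℚ) = k.num := Rat.mul_den_eq_num k
    calc k * ((k.num : ℚ) * (k.den : ℚ)) = (k * (k.den : ℚ)) * k.num := by ring
      _ = _ := by rw [h1]; ring
  -- the bad set
  have hcopC : ∀ z : ℂ, aeval z F1 = 0 → aeval z F0 ≠ 0 := by
    intro z h1 h0
    have e : ∀ p : ℤ[X], aeval z p = aeval z (p.map (Int.castRingHom ℚ)) := by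
      intro p
      rw [Polynomial.aeval_def, Polynomial.aeval_def, Polynomial.eval₂_map]
      congr 1
    rw [e, hF1m] at h1
    rw [e, hF0m] at h0
    simp only [map_mul, aeval_C] at h1 h0
    have hc : (algebraMap ℚ ℂ) ((L : ℚ) ^ 2) ≠ 0 := by
      rw [Ne, map_eq_zero]
      exact pow_ne_zero _ hLq
    have h1' := (mul_eq_zero.mp h1).resolve_left hc
    have h0' := (mul_eq_zero.mp h0).resolve_left hc
    obtain ⟨u, v, huv⟩ := hcop
    have := congrArg (aeval z) huv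
    simp [h1', h0'] at this
  have hW : F0 * derivative F1 - derivative F0 * F1 ≠ 0 := by
    intro h
    have h1 := congrArg (Polynomial.map (Int.castRingHom ℚ)) h
    rw [Polynomial.map_sub, Polynomial.map_mul, Polynomial.map_mul, ← derivative_map, ← derivative_map,
      hF0m, hF1m, derivative_C_mul, derivative_C_mul, Polynomial.map_zero] at h1
    have h2 : C ((L : ℚ) ^ 2) * C ((L : ℚ) ^ 2) * (A * derivative B - derivative A * B) = 0 := by
      rw [← h1]; ring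
    have h3 : C ((L : ℚ) ^ 2) ≠ 0 := by
      rw [Ne, C_eq_zero]; exact pow_ne_zero _ hLq
    exact wronsk hcop (by omega) ((mul_eq_zero.mp h2).resolve_left (mul_ne_zero h3 h3))
  have hF1d : F1.coeff d ≠ 0 := by
    have h1 : (F1.coeff d : ℚ) = (L : ℚ) ^ 2 * B.coeff d := by
      have := congrArg (fun p => p.coeff d) hF1m
      simp only [coeff_map, coeff_C_mul, eq_intCast] at this
      exact this
    intro h0
    rw [h0] at h1
    have h2 : B.coeff d ≠ 0 := by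
      rw [← hdB]; exact leadingCoeff_ne_zero.mpr hB0
    have h3 : (L : ℚ) ^ 2 * B.coeff d ≠ 0 := mul_ne_zero (pow_ne_zero _ hLq) h2
    exact h3 (by rw [← h1]; simp)
  have hbad1 := finite_bad F0 F1 hcopC hW
  have hbad2 : {v : ℤ | F0.coeff d + v * F1.coeff d = 0}.Finite := by
    apply Set.Subsingleton.finite
    intro a ha b hb
    have ha' : F0.coeff d + a * F1.coeff d = 0 := ha
    have hb' : F0.coeff d + b * F1.coeff d = 0 := hb
    have : a * F1.coeff d = b * F1.coeff d := by linarith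
    exact mul_right_cancel₀ hF1d this
  obtain ⟨M0, hM0⟩ := coef_bound' F0
  obtain ⟨M1, hM1⟩ := coef_bound' F1
  have hnd0 : F0.natDegree ≤ d := by
    have h1 : (F0.map (Int.castRingHom ℚ)).natDegree = F0.natDegree :=
      natDegree_map_eq_of_injective (RingHom.injective_int _) _
    rw [← h1, hF0m]
    exact (natDegree_C_mul_le _ _).trans hdA
  have hnd1 : F1.natDegree ≤ d := by
    have h1 : (F1.map (Int.castRingHom ℚ)).natDegree = F1.natDegree :=
      natDegree_map_eq_of_injective (RingHom.injective_int _) _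
    rw [← h1, hF1m]
    exact (natDegree_C_mul_le _ _).trans hdB.le
  have key : ((8 : ℕ) : ℝ) / ((2 : ℕ) : ℝ) ≤ C₁ := by
    refine exponent_lower d 2 8 (by norm_num) (by norm_num)
      (M0 + (6 + |(κ : ℝ)|) * M1 + 16) ?_ ?_ C₁ C₂ hbound
    · have h1 : (0 : ℝ) ≤ M0 := Nat.cast_nonneg _
      have h2 : (0 : ℝ) ≤ M1 := Nat.cast_nonneg _
      have h3 : 0 ≤ (6 + |(κ : ℝ)|) * M1 := mul_nonneg (by positivity) h2
      linarith
    intro N
    obtain ⟨n, hN, hn1, hns⟩ := avoid3 γ κ hκ0 _ (hbad1.union hbad2) (max N 5)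
    have hn5 : 5 ≤ n := le_trans (le_max_right _ _) hN
    obtain ⟨t, ht⟩ : ∃ t : ℤ, t = γ + κ * (n : ℤ) ^ 2 := ⟨_, rfl⟩
    rw [← ht] at hns
    have hns1 : t ∉ {v : ℤ | ¬ ((F0 + C v * F1).map (Int.castRingHom ℚ)).Separable} :=
      fun h => hns (Or.inl h)
    have hns2 : t ∉ {v : ℤ | F0.coeff d + v * F1.coeff d = 0} := fun h => hns (Or.inr h)
    have hsep : ((F0 + C t * F1).map (Int.castRingHom ℚ)).Separable := by
      by_contra hcon
      exact hns1 hcon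
    have hlead : F0.coeff d + t * F1.coeff d ≠ 0 := fun h => hns2 h
    -- the value
    obtain ⟨x, hx⟩ : ∃ x : ℤ, x = (t + 6) * (t - 1) * (t - 2) * (t - 3) := ⟨_, rfl⟩
    have hval : (((F0 + C t * F1).eval x : ℤ) : ℚ) = ((L : ℚ) * (k.num : ℚ) * n * Y.eval (t : ℚ)) ^ 2 := by
      have e1 : (((F0 + C t * F1).eval x : ℤ) : ℚ) =
          ((F0 + C t * F1).map (Int.castRingHom ℚ)).eval (x : ℚ) := by
        rw [Polynomial.eval_intCast_map]
        simp
      have e2 : (Fam (-6) 1 2 3 A B).eval (t : ℚ) = A.eval (x : ℚ) + t * B.eval (x : ℚ) := by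
        have hQ : (Qt (-6) 1 2 3).eval (t : ℚ) = (x : ℚ) := by
          simp only [Qt, eval_mul, eval_sub, eval_X, eval_C, hx]
          push_cast
          ring
        simp only [Fam, eval_add, eval_mul, eval_X, eval_comp, hQ]
      have e3 : (Fam (-6) 1 2 3 A B).eval (t : ℚ) = k * ((t : ℚ) - γ) * (Y.eval (t : ℚ)) ^ 2 := by
        rw [hF]
        simp only [eval_mul, eval_C, eval_sub, eval_X, eval_pow]
      rw [e1, Polynomial.map_add, Polynomial.map_mul, hF0m, hF1m, map_C]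
      simp only [eval_add, eval_mul, eval_C, eq_intCast]
      have e4 : (L : ℚ) ^ 2 * A.eval (x : ℚ) + (t : ℚ) * ((L : ℚ) ^ 2 * B.eval (x : ℚ)) =
          (L : ℚ) ^ 2 * (k * ((t : ℚ) - γ) * (Y.eval (t : ℚ)) ^ 2) := by
        rw [← e3, e2]; ring
      rw [e4]
      have e5 : (t : ℚ) - γ = κ * (n : ℚ) ^ 2 := by
        rw [ht]; push_cast; ring
      rw [e5]
      linear_combination (L : ℚ) ^ 2 * (n : ℚ) ^ 2 * (Y.eval (t : ℚ)) ^ 2 * hkκ
    obtain ⟨y, hy⟩ : ∃ y : ℤ, y ^ 2 = (F0 + C t * F1).eval x := by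
      have h1 : IsSquare ((((F0 + C t * F1).eval x : ℤ)) : ℚ) := by
        rw [hval]; exact ⟨_, sq _⟩
      rw [Rat.isSquare_intCast_iff] at h1
      obtain ⟨y, hy⟩ := h1
      exact ⟨y, by rw [hy]; ring⟩
    have hnR : (5 : ℝ) ≤ n := by exact_mod_cast hn5
    have hn2 : (25 : ℝ) ≤ (n : ℝ) ^ 2 := by nlinarith
    have hκ1 : (1 : ℝ) ≤ |(κ : ℝ)| := by
      have : (1 : ℤ) ≤ |κ| := Int.one_le_abs hκ0
      exact_mod_cast this
    have hγR : |(γ : ℝ)| ≤ 6 := by exact_mod_cast hγ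
    have htR : (t : ℝ) = γ + κ * (n : ℝ) ^ 2 := by rw [ht]; push_cast; ring
    have htle : |(t : ℝ)| ≤ (6 + |(κ : ℝ)|) * (n : ℝ) ^ 2 := by
      rw [htR]
      have h1 := abs_add_le (γ : ℝ) (κ * (n : ℝ) ^ 2)
      rw [abs_mul, abs_of_nonneg (by positivity : (0 : ℝ) ≤ (n : ℝ) ^ 2)] at h1
      nlinarith
    have htge : (n : ℝ) ^ 2 - 6 ≤ |(t : ℝ)| := by
      rw [htR]
      have h1 := abs_sub_abs_le_abs_sub (κ * (n : ℝ) ^ 2 : ℝ) (-(γ : ℝ))
      rw [abs_mul, abs_of_nonneg (by positivity : (0 : ℝ) ≤ (n : ℝ) ^ 2), abs_neg] at h1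
      have h2 : κ * (n : ℝ) ^ 2 - -(γ : ℝ) = γ + κ * (n : ℝ) ^ 2 := by ring
      rw [h2] at h1
      nlinarith
    refine ⟨n, le_trans (le_max_left _ _) hN, hn1, F0 + C t * F1, x, y, ?_, hsep, ?_, hy, ?_⟩
    · apply natDegree_eq_of_le_of_coeff_ne_zero
      · refine (natDegree_add_le _ _).trans (max_le hnd0 ?_)
        exact (natDegree_C_mul_le _ _).trans hnd1
      · rw [coeff_add, coeff_C_mul]; exact hlead
    · intro i
      have a0 : |((F0.coeff i : ℤ) : ℝ)| ≤ M0 := by exact_mod_cast hM0 i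
      have a1 : |((F1.coeff i : ℤ) : ℝ)| ≤ M1 := by exact_mod_cast hM1 i
      rw [coeff_add, coeff_C_mul]
      push_cast
      have h1 := abs_add_le ((F0.coeff i : ℤ) : ℝ) ((t : ℝ) * ((F1.coeff i : ℤ) : ℝ))
      rw [abs_mul] at h1
      have h2 : |(t : ℝ)| * |((F1.coeff i : ℤ) : ℝ)| ≤ (6 + |(κ : ℝ)|) * (n : ℝ) ^ 2 * M1 :=
        mul_le_mul htle a1 (abs_nonneg _) (by positivity)
      have h3 : (0 : ℝ) ≤ M0 := Nat.cast_nonneg _
      have h4 : (M0 : ℝ) ≤ M0 * (n : ℝ) ^ 2 := by nlinarith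
      nlinarith
    · have hc : ∀ c : ℝ, |c| ≤ 6 → (n : ℝ) ^ 2 / 2 ≤ |(t : ℝ) + c| := by
        intro c hc
        have h1 := abs_sub_abs_le_abs_sub (t : ℝ) (-c)
        rw [abs_neg, sub_neg_eq_add] at h1
        linarith
      have c1 := hc 6 (by norm_num)
      have c2 := hc (-1) (by norm_num)
      have c3 := hc (-2) (by norm_num)
      have c4 := hc (-3) (by norm_num)
      have hxR : |(x : ℝ)| = |(t : ℝ) + 6| * |(t : ℝ) + -1| * |(t : ℝ) + -2| * |(t : ℝ) + -3| := by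
        rw [hx]
        push_cast
        rw [abs_mul, abs_mul, abs_mul]
        ring_nf
      have hpos : (0 : ℝ) ≤ (n : ℝ) ^ 2 / 2 := by positivity
      have h1 : ((n : ℝ) ^ 2 / 2) ^ 4 ≤ |(x : ℝ)| := by
        rw [hxR]
        calc ((n : ℝ) ^ 2 / 2) ^ 4 = ((n : ℝ) ^ 2 / 2) * ((n : ℝ) ^ 2 / 2) * ((n : ℝ) ^ 2 / 2) *
              ((n : ℝ) ^ 2 / 2) := by ring
          _ ≤ _ := by gcongr
      have h2 : (n : ℝ) ^ 8 = 16 * ((n : ℝ) ^ 2 / 2) ^ 4 := by ring
      have h3 : (0 : ℝ) ≤ M0 := Nat.cast_nonneg _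
      have h4 : (0 : ℝ) ≤ M1 := Nat.cast_nonneg _
      have h5 : 0 ≤ (6 + |(κ : ℝ)|) * M1 := mul_nonneg (by positivity) h4
      have h6 : 0 ≤ |(x : ℝ)| := abs_nonneg _
      rw [h2]
      nlinarith [mul_nonneg h3 h6, mul_nonneg h5 h6]
  norm_num at key
  exact key

end Pool.Agent.Helper28.EF
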