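import Pool.Agent.Helper28.EF.Defs

set_option autoImplicit false

open Polynomial

/-!
# EF-08: degrees

`deg_prod`: `(A + C c B).coeff (natDegree B) = (c - τ) lc(B) ≠ 0` and `natDegree (A + C c B) ≤ natDegree B`, so
`natDegree (A + C c B) = natDegree B` and `A + C c B ≠ 0`; then `natDegree_mul`, `natDegree_X_pow`.

`inf_step`. Put `x_i = natDegree p_i`, `y_i = natDegree q_i`, `D = natDegree B`. By `deg_prod`,
`e_i + x_i + y_i = D` for `i = 1..4`. The two terms of `N = B B'` have degrees `f1 = e3 + e4 + 2 (x3 + x4)` and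
`f2 = e1 + e2 + 2 (y1 + y2)`. If `x1+x2+x3+x4 = 2D`: subtracting `(e1+x1+y1) + (e2+x2+y2) = 2D` gives
`x3 + x4 = e1 + e2 + y1 + y2`, so `f1 = (e1+e2+e3+e4) + (y1+y2) + (x3+x4) = 1 + x3+x4+y1+y2` and
`f2 = x3 + x4 + y1 + y2 < f1`. If `y1+y2+y3+y4 = 2D`: subtract `(e3+x3+y3) + (e4+x4+y4) = 2D`:
`y1 + y2 = e3 + e4 + x3 + x4`, so `f2 = 1 + x3+x4+y1+y2 > f1`. So `N ≠ 0`, `B' ≠ 0` and
`natDegree B + natDegree B' = natDegree N = 1+x3+x4+y1+y2`.
By `hV`, `natDegree (A' B + A B') ≤ natDegree N`, and `natDegree (A B') ≤ D + natDegree B'`, so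
`natDegree (A' B) ≤ D + natDegree B'`, so `natDegree A' ≤ natDegree B'` (`natDegree_mul`, or `A' = 0`). Comparing the
coefficients at `D + natDegree B'` in `hV` (`coeff_mul_degree_add_degree`-type lemmas: for
`natDegree f ≤ r`, `natDegree g ≤ s` one has `(f g).coeff (r+s) = f.coeff r * g.coeff s`, this is
`Polynomial.coeff_mul_add_eq_of_natDegree_le`):
`A'.coeff D' * lc(B) - τ lc(B) lc(B') = -(c1+c2) lc(B) lc(B')` in the first case (the second term of the right
side of `hV` has smaller degree, so the leading coefficient of `N` is that of the first term), and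
`= -(c3+c4) lc(B) lc(B')` in the second case. Cancel `lc(B) ≠ 0`.
-/

namespace Pool.Agent.Helper28.EF

theorem deg_prod {A B p q : ℚ[X]} {c τ : ℚ} {e : ℕ} (nB : B ≠ 0) (dA : A.natDegree ≤ B.natDegree)
    (lA : A.coeff B.natDegree = -τ * B.leadingCoeff) (hτ : τ ≠ c)
    (h : A + C c * B = X ^ e * p * q) :
    p ≠ 0 ∧ q ≠ 0 ∧ e + p.natDegree + q.natDegree = B.natDegree := by
  have hc : (A + C c * B).coeff B.natDegree = (c - τ) * B.leadingCoeff := by
    rw [coeff_add, coeff_C_mul, lA, coeff_natDegree]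
    ring
  have hlc : B.leadingCoeff ≠ 0 := leadingCoeff_ne_zero.mpr nB
  have hne : (A + C c * B).coeff B.natDegree ≠ 0 := by
    rw [hc]
    exact mul_ne_zero (sub_ne_zero.mpr hτ.symm) hlc
  have hle : (A + C c * B).natDegree ≤ B.natDegree :=
    (natDegree_add_le _ _).trans (max_le dA (natDegree_C_mul_le _ _))
  have hdeg : (A + C c * B).natDegree = B.natDegree :=
    natDegree_eq_of_le_of_coeff_ne_zero hle hne
  have h0 : X ^ e * p * q ≠ 0 := by
    rw [← h]
    intro h0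
    rw [h0] at hne
    simp at hne
  have hp : p ≠ 0 := by
    rintro rfl
    simp at h0
  have hq : q ≠ 0 := by
    rintro rfl
    simp at h0
  refine ⟨hp, hq, ?_⟩
  rw [← hdeg, h, natDegree_mul (mul_ne_zero (pow_ne_zero _ X_ne_zero) hp) hq,
    natDegree_mul (pow_ne_zero _ X_ne_zero) hp, natDegree_X_pow]

private theorem natDegree_term (e : ℕ) {p q : ℚ[X]} (hp : p ≠ 0) (hq : q ≠ 0) :
    (X ^ e * (p * q) ^ 2).natDegree = e + 2 * (p.natDegree + q.natDegree) := by
  rw [natDegree_mul (pow_ne_zero _ X_ne_zero) (pow_ne_zero _ (mul_ne_zero hp hq)),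
    natDegree_X_pow, natDegree_pow, natDegree_mul hp hq]

private theorem term_ne (e : ℕ) {p q : ℚ[X]} (hp : p ≠ 0) (hq : q ≠ 0) :
    X ^ e * (p * q) ^ 2 ≠ 0 :=
  mul_ne_zero (pow_ne_zero _ X_ne_zero) (pow_ne_zero _ (mul_ne_zero hp hq))

/-- The common part of both cases: `S` is the term of the larger degree. -/
private theorem inf_aux {A B A' B' S T : ℚ[X]} {s t τ : ℚ} (nB : B ≠ 0)
    (dA : A.natDegree ≤ B.natDegree)
    (lA : A.coeff B.natDegree = -τ * B.leadingCoeff)
    (hS : S ≠ 0) (hd : T.natDegree < S.natDegree)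
    (hB : B * B' = S + T)
    (hV : A' * B + A * B' = -(C s * S + C t * T)) :
    B' ≠ 0 ∧ A'.natDegree ≤ B'.natDegree ∧ B.natDegree + B'.natDegree = S.natDegree ∧
      A'.coeff B'.natDegree = -(s - τ) * B'.leadingCoeff := by
  have hlc : B.leadingCoeff ≠ 0 := leadingCoeff_ne_zero.mpr nB
  have hTc : T.coeff S.natDegree = 0 := coeff_eq_zero_of_natDegree_lt hd
  have hNc : (S + T).coeff S.natDegree = S.leadingCoeff := by
    rw [coeff_add, hTc, add_zero, coeff_natDegree]
  have hNdeg : (S + T).natDegree = S.natDegree := by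
    apply natDegree_eq_of_le_of_coeff_ne_zero
    · exact (natDegree_add_le _ _).trans (max_le le_rfl hd.le)
    · rw [hNc]
      exact leadingCoeff_ne_zero.mpr hS
  have hN0 : S + T ≠ 0 := by
    intro h
    rw [h, coeff_zero] at hNc
    exact leadingCoeff_ne_zero.mpr hS hNc.symm
  have hB' : B' ≠ 0 := by
    rintro rfl
    rw [mul_zero] at hB
    exact hN0 hB.symm
  have hsum : B.natDegree + B'.natDegree = S.natDegree := by
    rw [← hNdeg, ← hB, natDegree_mul nB hB']
  have hAB : (A * B').natDegree ≤ S.natDegree := by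
    refine natDegree_mul_le.trans ?_
    omega
  have hR : (-(C s * S + C t * T)).natDegree ≤ S.natDegree := by
    rw [natDegree_neg]
    refine (natDegree_add_le _ _).trans (max_le (natDegree_C_mul_le _ _) ?_)
    exact (natDegree_C_mul_le _ _).trans hd.le
  have hA'B : (A' * B).natDegree ≤ S.natDegree := by
    have : A' * B = -(C s * S + C t * T) - A * B' := by rw [← hV]; ring
    rw [this]
    exact (natDegree_sub_le _ _).trans (max_le hR hAB)
  have hA' : A'.natDegree ≤ B'.natDegree := by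
    by_cases h0 : A' = 0
    · rw [h0, natDegree_zero]; exact Nat.zero_le _
    · rw [natDegree_mul h0 nB] at hA'B
      omega
  refine ⟨hB', hA', hsum, ?_⟩
  have h1 : (A' * B).coeff S.natDegree = A'.coeff B'.natDegree * B.leadingCoeff := by
    rw [← hsum, add_comm]
    exact coeff_mul_add_eq_of_natDegree_le hA' le_rfl
  have h2 : (A * B').coeff S.natDegree = A.coeff B.natDegree * B'.leadingCoeff := by
    rw [← hsum]
    exact coeff_mul_add_eq_of_natDegree_le dA le_rfl
  have h3 : S.leadingCoeff = B.leadingCoeff * B'.leadingCoeff := by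
    rw [← hNc, ← hB, ← hsum]
    exact coeff_mul_add_eq_of_natDegree_le le_rfl le_rfl
  have h4 := congrArg (fun f : ℚ[X] => f.coeff S.natDegree) hV
  simp only [coeff_add, coeff_neg, coeff_C_mul] at h4
  rw [h1, h2, hTc, coeff_natDegree, h3, lA] at h4
  apply mul_right_cancel₀ hlc
  linear_combination h4

theorem inf_step {c1 c2 c3 c4 τ : ℚ} {e1 e2 e3 e4 : ℕ}
    {p1 p2 p3 p4 q1 q2 q3 q4 A B A' B' : ℚ[X]}
    (S : St c1 c2 c3 c4 e1 e2 e3 e4 p1 p2 p3 p4 q1 q2 q3 q4 A B)
    (nB : B ≠ 0) (dA : A.natDegree ≤ B.natDegree)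
    (lA : A.coeff B.natDegree = -τ * B.leadingCoeff)
    (t1 : τ ≠ c1) (t2 : τ ≠ c2) (t3 : τ ≠ c3) (t4 : τ ≠ c4)
    (hB : B * B' = X ^ (e3 + e4) * (p3 * p4) ^ 2 + X ^ (e1 + e2) * (q1 * q2) ^ 2)
    (hV : A' * B + A * B' = -(C (c1 + c2) * (X ^ (e3 + e4) * (p3 * p4) ^ 2) +
      C (c3 + c4) * (X ^ (e1 + e2) * (q1 * q2) ^ 2)))
    (hpar : p1.natDegree + p2.natDegree + p3.natDegree + p4.natDegree = 2 * B.natDegree ∨
      q1.natDegree + q2.natDegree + q3.natDegree + q4.natDegree = 2 * B.natDegree) :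
    B' ≠ 0 ∧ A'.natDegree ≤ B'.natDegree ∧
    B.natDegree + B'.natDegree = 1 + p3.natDegree + p4.natDegree + q1.natDegree + q2.natDegree ∧
    (p1.natDegree + p2.natDegree + p3.natDegree + p4.natDegree = 2 * B.natDegree →
      A'.coeff B'.natDegree = -(c1 + c2 - τ) * B'.leadingCoeff) ∧
    (q1.natDegree + q2.natDegree + q3.natDegree + q4.natDegree = 2 * B.natDegree →
      A'.coeff B'.natDegree = -(c3 + c4 - τ) * B'.leadingCoeff) := by
  obtain ⟨n1, m1, d1⟩ := deg_prod nB dA lA t1 S.h1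
  obtain ⟨n2, m2, d2⟩ := deg_prod nB dA lA t2 S.h2
  obtain ⟨n3, m3, d3⟩ := deg_prod nB dA lA t3 S.h3
  obtain ⟨n4, m4, d4⟩ := deg_prod nB dA lA t4 S.h4
  have he := S.he
  have f1 := natDegree_term (e3 + e4) n3 n4
  have f2 := natDegree_term (e1 + e2) m1 m2
  have case1 : p1.natDegree + p2.natDegree + p3.natDegree + p4.natDegree = 2 * B.natDegree →
      B' ≠ 0 ∧ A'.natDegree ≤ B'.natDegree ∧
      B.natDegree + B'.natDegree = (X ^ (e3 + e4) * (p3 * p4) ^ 2 : ℚ[X]).natDegree ∧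
      A'.coeff B'.natDegree = -(c1 + c2 - τ) * B'.leadingCoeff := by
    intro hx
    exact inf_aux nB dA lA (term_ne (e3 + e4) n3 n4) (by rw [f1, f2]; omega) hB hV
  have case2 : q1.natDegree + q2.natDegree + q3.natDegree + q4.natDegree = 2 * B.natDegree →
      B' ≠ 0 ∧ A'.natDegree ≤ B'.natDegree ∧
      B.natDegree + B'.natDegree = (X ^ (e1 + e2) * (q1 * q2) ^ 2 : ℚ[X]).natDegree ∧
      A'.coeff B'.natDegree = -(c3 + c4 - τ) * B'.leadingCoeff := by
    intro hx
    refine inf_aux nB dA lA (term_ne (e1 + e2) m1 m2) (by rw [f1, f2]; omega)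
      (T := X ^ (e3 + e4) * (p3 * p4) ^ 2) (t := c1 + c2) ?_ ?_
    · rw [hB]; ring
    · rw [hV]; ring
  rcases hpar with hx | hy
  · obtain ⟨g1, g2, g3, -⟩ := case1 hx
    rw [f1] at g3
    exact ⟨g1, g2, by omega, fun h => (case1 h).2.2.2, fun h => (case2 h).2.2.2⟩
  · obtain ⟨g1, g2, g3, -⟩ := case2 hy
    rw [f2] at g3
    exact ⟨g1, g2, by omega, fun h => (case1 h).2.2.2, fun h => (case2 h).2.2.2⟩

end Pool.Agent.Helper28.EF
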