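import Mathlib

set_option autoImplicit false

/-!
# TS-1: the Minkowski step for three squares

Proof. Minkowski's convex body theorem (`MeasureTheory.exists_ne_zero_mem_lattice_of_measure_mul_two_pow_lt_measure`)
for the lattice `ℤ^3` in `ℝ^3` (`ZLattice`/span of the standard basis, fundamental domain `[0,1)^3` of volume 1) and the
symmetric convex set `K = { (x,y,z) : R^2 + S^2 + T^2 < 2m }`, where `R = 2 q x + b y + m z`, `S = √(2q) x + (b/√(2q)) y`,
`T = √(m/(2q)) y`. `K` is the preimage of the open ball of radius `√(2m)` under the linear map `(x,y,z) ↦ (R,S,T)` whose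
determinant has absolute value `m √(2q) √(m/(2q)) = m √m`. So `vol K = (4/3) π (2m)^(3/2) / (m √m) = (8 √2 / 3) π > 8 = 2^3`
(`√2 > 1.41`, `π > 3.14`: `(8 * 1.41 / 3) * 3.14 > 11`). Hence there is a nonzero integer point in `K`. And
`S^2 + T^2 = 2 q x^2 + 2 b x y + ((b^2 + m)/(2q)) y^2 = 2 (q x^2 + b x y + h y^2)` since `b^2 + m = 4 q h`.
Useful: `EuclideanSpace.volume_ball`, `MeasureTheory.Measure.addHaar_preimage_linearMap`.
(Any other proof, for example Hermite reduction of the ternary form, is as good.)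
-/

namespace Pool.Agent.Helper28.EF

open MeasureTheory

private theorem vol_ball3 (r : ℝ) (hr : 0 ≤ r) :
    volume {x : Fin 3 → ℝ | x 0 ^ 2 + x 1 ^ 2 + x 2 ^ 2 < r ^ 2} =
      ENNReal.ofReal r ^ 3 * ENNReal.ofReal (Real.pi * 4 / 3) := by
  rw [← EuclideanSpace.volume_ball_fin_three 0 r,
    ← (PiLp.volume_preserving_toLp (Fin 3)).measure_preimage measurableSet_ball.nullMeasurableSet]
  congr 1
  ext x
  rw [EuclideanSpace.ball_zero_eq _ hr]
  simp [Fin.sum_univ_three]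

/-- The matrix of the linear map `(x, y, z) ↦ (R, S, T)`. -/
private noncomputable def mat (m q b : ℝ) : Matrix (Fin 3) (Fin 3) ℝ :=
  !![2 * q, b, m; √(2 * q), b / √(2 * q), 0; 0, √(m / (2 * q)), 0]

private theorem det_mat (m q b : ℝ) (hm : 0 < m) (hq : 0 < q) : (mat m q b).det = m * √m := by
  unfold mat
  rw [Matrix.det_fin_three]
  simp only [Matrix.of_apply, Matrix.cons_val', Matrix.cons_val_zero, Matrix.cons_val_one,
    Matrix.cons_val]
  have h1 : √(2 * q) * √(m / (2 * q)) = √m := by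
    rw [← Real.sqrt_mul (by positivity)]
    congr 1
    field_simp
  linear_combination m * h1

private theorem mat_sq (m q b h : ℝ) (hm : 0 < m) (hq : 0 < q) (hb : b ^ 2 + m = 4 * q * h)
    (v : Fin 3 → ℝ) :
    ((Matrix.toLin' (mat m q b)) v 0) ^ 2 + ((Matrix.toLin' (mat m q b)) v 1) ^ 2 +
      ((Matrix.toLin' (mat m q b)) v 2) ^ 2 =
    (2 * q * v 0 + b * v 1 + m * v 2) ^ 2 +
      2 * (q * v 0 ^ 2 + b * v 0 * v 1 + h * v 1 ^ 2) := by
  have hs : 0 < √(2 * q) := Real.sqrt_pos.mpr (by linarith)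
  have hs2 : √(2 * q) ^ 2 = 2 * q := Real.sq_sqrt (by linarith)
  have ht2 : √(m / (2 * q)) ^ 2 = m / (2 * q) := Real.sq_sqrt (by positivity)
  have e0 : (Matrix.toLin' (mat m q b)) v 0 = 2 * q * v 0 + b * v 1 + m * v 2 := by
    simp [mat, Matrix.toLin'_apply, Matrix.mulVec, dotProduct, Fin.sum_univ_three]
  have e1 : (Matrix.toLin' (mat m q b)) v 1 = √(2 * q) * v 0 + b / √(2 * q) * v 1 := by
    simp [mat, Matrix.toLin'_apply, Matrix.mulVec, dotProduct, Fin.sum_univ_three]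
  have e2 : (Matrix.toLin' (mat m q b)) v 2 = √(m / (2 * q)) * v 1 := by
    simp [mat, Matrix.toLin'_apply, Matrix.mulVec, dotProduct, Fin.sum_univ_three]
  rw [e0, e1, e2, mul_pow √(m / (2 * q)), ht2]
  have h3 : (√(2 * q) * v 0 + b / √(2 * q) * v 1) ^ 2 =
      2 * q * v 0 ^ 2 + 2 * b * v 0 * v 1 + b ^ 2 / (2 * q) * v 1 ^ 2 := by
    have h4 : (√(2 * q) * v 0 + b / √(2 * q) * v 1) ^ 2 =
        √(2 * q) ^ 2 * v 0 ^ 2 + 2 * b * v 0 * v 1 * (√(2 * q) / √(2 * q)) +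
          b ^ 2 / √(2 * q) ^ 2 * v 1 ^ 2 := by
      field_simp
      ring
    rw [h4, hs2, div_self hs.ne']
    ring
  rw [h3]
  have h5 : b ^ 2 / (2 * q) + m / (2 * q) = 2 * h := by
    rw [← add_div, hb]
    field_simp
    ring
  linear_combination (v 1) ^ 2 * h5

theorem mink (m q b h : ℤ) (hm : 0 < m) (hq : 0 < q) (hb : b ^ 2 + m = 4 * q * h) :
    ∃ x y z : ℤ, ¬ (x = 0 ∧ y = 0 ∧ z = 0) ∧
      (2 * q * x + b * y + m * z) ^ 2 + 2 * (q * x ^ 2 + b * x * y + h * y ^ 2) < 2 * m := by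
  have hm' : (0 : ℝ) < m := by exact_mod_cast hm
  have hq' : (0 : ℝ) < q := by exact_mod_cast hq
  have hb' : (b : ℝ) ^ 2 + m = 4 * q * h := by exact_mod_cast hb
  set r : ℝ := √(2 * m) with hr
  have hr0 : 0 < r := Real.sqrt_pos.mpr (by linarith)
  have hr2 : r ^ 2 = 2 * m := Real.sq_sqrt (by linarith)
  set f : (Fin 3 → ℝ) →ₗ[ℝ] (Fin 3 → ℝ) := Matrix.toLin' (mat m q b) with hf
  have hdet : LinearMap.det f = m * √m := by
    rw [hf, LinearMap.det_toLin', det_mat _ _ _ hm' hq']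
  have hsm : 0 < √(m : ℝ) := Real.sqrt_pos.mpr hm'
  have hdet0 : LinearMap.det f ≠ 0 := by rw [hdet]; positivity
  let B : Set (Fin 3 → ℝ) := {x | x 0 ^ 2 + x 1 ^ 2 + x 2 ^ 2 < r ^ 2}
  have hvol : volume (f ⁻¹' B) =
      ENNReal.ofReal ((m * √m)⁻¹ * (r ^ 3 * (Real.pi * 4 / 3))) := by
    rw [MeasureTheory.Measure.addHaar_preimage_linearMap volume hdet0, vol_ball3 r hr0.le, hdet,
      abs_of_pos (by positivity), ENNReal.ofReal_mul (by positivity),
      ENNReal.ofReal_mul (by positivity), ENNReal.ofReal_pow hr0.le]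
  have hr3 : r ^ 3 = 2 * m * (√2 * √m) := by
    have : r ^ 3 = r ^ 2 * r := by ring
    rw [this, hr2, hr, Real.sqrt_mul (by norm_num)]
  have hval : (m * √m : ℝ)⁻¹ * (r ^ 3 * (Real.pi * 4 / 3)) = 8 * √2 * Real.pi / 3 := by
    rw [hr3]
    field_simp
    ring
  have hbig : (8 : ℝ) < 8 * √2 * Real.pi / 3 := by
    have h1 : (1 : ℝ) ≤ √2 := by
      rw [Real.one_le_sqrt]; norm_num
    have h2 : (3 : ℝ) < Real.pi := Real.pi_gt_three
    nlinarith
  have hconv : Convex ℝ (f ⁻¹' B) := by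
    have h1 : f ⁻¹' B = ((WithLp.linearEquiv 2 ℝ (Fin 3 → ℝ)).symm.toLinearMap ∘ₗ f) ⁻¹'
        (Metric.ball (0 : EuclideanSpace ℝ (Fin 3)) r) := by
      ext x
      rw [EuclideanSpace.ball_zero_eq _ hr0.le]
      simp [B, Fin.sum_univ_three]
    rw [h1]
    exact (convex_ball _ _).linear_preimage _
  have hsymm : ∀ x ∈ f ⁻¹' B, -x ∈ f ⁻¹' B := by
    intro x hx
    have hx' : (f x 0) ^ 2 + (f x 1) ^ 2 + (f x 2) ^ 2 < r ^ 2 := hx
    show (f (-x) 0) ^ 2 + (f (-x) 1) ^ 2 + (f (-x) 2) ^ 2 < r ^ 2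
    rw [map_neg]
    simpa using hx'
  have hfund := ZSpan.isAddFundamentalDomain' (Pi.basisFun ℝ (Fin 3)) volume
  have hlt : volume (ZSpan.fundamentalDomain (Pi.basisFun ℝ (Fin 3))) *
      2 ^ Module.finrank ℝ (Fin 3 → ℝ) < volume (f ⁻¹' B) := by
    rw [ZSpan.volume_fundamentalDomain, hvol, hval]
    have h1 : (Matrix.of (Pi.basisFun ℝ (Fin 3))).det = 1 := by
      have : (Matrix.of (Pi.basisFun ℝ (Fin 3)) : Matrix (Fin 3) (Fin 3) ℝ) = 1 := by
        ext i j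
        simp [Matrix.one_apply, Pi.single_apply, eq_comm]
      rw [this, Matrix.det_one]
    rw [h1, abs_one, ENNReal.ofReal_one, one_mul, Module.finrank_fin_fun]
    have h2 : (2 : ENNReal) ^ 3 = ENNReal.ofReal 8 := by
      rw [show (8 : ℝ) = 2 ^ 3 by norm_num, ENNReal.ofReal_pow (by norm_num)]
      norm_num
    rw [h2]
    exact (ENNReal.ofReal_lt_ofReal_iff (by linarith)).mpr hbig
  have : Countable (Submodule.span ℤ (Set.range (Pi.basisFun ℝ (Fin 3)))).toAddSubgroup := by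
    change Countable (Submodule.span ℤ (Set.range (Pi.basisFun ℝ (Fin 3))))
    infer_instance
  obtain ⟨x, hx0, hxs⟩ := exists_ne_zero_mem_lattice_of_measure_mul_two_pow_lt_measure
    hfund hsymm hconv hlt
  have hxL : (x : Fin 3 → ℝ) ∈ Submodule.span ℤ (Set.range (Pi.basisFun ℝ (Fin 3))) := x.2
  rw [Module.Basis.mem_span_iff_repr_mem] at hxL
  have hint : ∀ i, ∃ n : ℤ, (n : ℝ) = (x : Fin 3 → ℝ) i := by
    intro i
    obtain ⟨n, hn⟩ := hxL i
    refine ⟨n, ?_⟩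
    simpa using hn
  obtain ⟨X, hX⟩ := hint 0
  obtain ⟨Y, hY⟩ := hint 1
  obtain ⟨Z, hZ⟩ := hint 2
  refine ⟨X, Y, Z, ?_, ?_⟩
  · rintro ⟨rfl, rfl, rfl⟩
    apply hx0
    apply Subtype.ext
    funext i
    fin_cases i
    · simpa using hX.symm
    · simpa using hY.symm
    · simpa using hZ.symm
  · have h1 : (f x 0) ^ 2 + (f x 1) ^ 2 + (f x 2) ^ 2 < r ^ 2 := hxs
    rw [hf, mat_sq _ _ _ h hm' hq' hb', hr2, ← hX, ← hY, ← hZ] at h1
    exact_mod_cast h1

end Pool.Agent.Helper28.EF
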