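import Pool.Agent.Helper28.EF.Arith

set_option autoImplicit false

open Polynomial

/-!
# EF-10: symmetry

Swapping the indices 2 and 3 (and `l` and `m`), or 2 and 4 (and `l` and `n`). Everything is a rewriting with
`E_swap12`, `E_swap13`, `Dl_swap12`, `Dl_swap13` (EF-07), `ring`, commutativity.
-/

namespace Pool.Agent.Helper28.EF

theorem perm23 {c1 c2 c3 c4 : ℚ} {l m n : ℤ} {p1 p2 p3 p4 q1 q2 q3 q4 A B : ℚ[X]}
    (H : Good c1 c2 c3 c4 l m n p1 p2 p3 p4 q1 q2 q3 q4 A B) :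
    Good c1 c3 c2 c4 m l n p1 p3 p2 p4 q1 q3 q2 q4 A B := by
  have hE : ∀ a b c : ℤ, E b a c = E a b c := E_swap12
  have hD : ∀ a b c : ℤ, Dl b a c = Dl a b c := Dl_swap12
  have hQt : Qt c1 c3 c2 c4 = Qt c1 c2 c3 c4 := by
    unfold Qt
    ring
  have htau : tau c1 c3 c2 c4 m l n = tau c1 c2 c3 c4 l m n := by
    unfold tau
    rw [add_comm m l]
    split_ifs <;> ring
  obtain ⟨st, np1, np2, np3, np4, nq1, nq2, nq3, nq4, nB, dp1, dp2, dp3, dp4, dq1, dq2, dq3, dq4,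
    dB, dA, lA, sq⟩ := H
  have hst : St c1 c3 c2 c4 (E m l n) (E (m - 1) l n) (E m (l - 1) n) (E m l (n - 1))
      p1 p3 p2 p4 q1 q3 q2 q4 A B := by
    rw [hE l m n, hE l (m - 1) n, hE (l - 1) m n, hE l m (n - 1)]
    refine ⟨?_, st.h1, st.h3, st.h2, st.h4, ?_, st.cop⟩
    · have := st.he
      omega
    · rw [← st.hs]
      ring
  refine ⟨hst, np1, np3, np2, np4, nq1, nq3, nq2, nq4, nB, ?_, ?_, ?_, ?_, ?_, ?_, ?_, ?_, ?_, dA,
    ?_, ?_⟩
  · rw [hD (l - 1) (m - 1) (n - 1)]; exact dp1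
  · rw [hD l (m - 1) n]; exact dp3
  · rw [hD (l - 1) m n]; exact dp2
  · rw [hD l m (n - 1)]; exact dp4
  · rw [hD l m n]; exact dq1
  · rw [hD (l - 1) m (n - 1)]; exact dq3
  · rw [hD l (m - 1) (n - 1)]; exact dq2
  · rw [hD (l - 1) (m - 1) n]; exact dq4
  · rw [dB]; ring
  · rw [htau]; exact lA
  · have hcls : cls c1 c3 c2 c4 (E m l n) (E (m - 1) l n) (E m (l - 1) n) (E m l (n - 1)) =
        cls c1 c2 c3 c4 (E l m n) (E (l - 1) m n) (E l (m - 1) n) (E l m (n - 1)) := by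
      rw [hE l m n, hE l (m - 1) n, hE (l - 1) m n, hE l m (n - 1)]
      unfold cls
      ring
    rw [hcls]
    unfold Fam
    rw [hQt]
    exact sq

theorem perm24 {c1 c2 c3 c4 : ℚ} {l m n : ℤ} {p1 p2 p3 p4 q1 q2 q3 q4 A B : ℚ[X]}
    (H : Good c1 c2 c3 c4 l m n p1 p2 p3 p4 q1 q2 q3 q4 A B) :
    Good c1 c4 c3 c2 n m l p1 p4 p3 p2 q1 q4 q3 q2 A B := by
  have hE : ∀ a b c : ℤ, E c b a = E a b c := E_swap13
  have hD : ∀ a b c : ℤ, Dl c b a = Dl a b c := Dl_swap13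
  have hQt : Qt c1 c4 c3 c2 = Qt c1 c2 c3 c4 := by
    unfold Qt
    ring
  have htau : tau c1 c4 c3 c2 n m l = tau c1 c2 c3 c4 l m n := by
    unfold tau
    rw [show n + m + l = l + m + n by ring]
    split_ifs <;> ring
  obtain ⟨st, np1, np2, np3, np4, nq1, nq2, nq3, nq4, nB, dp1, dp2, dp3, dp4, dq1, dq2, dq3, dq4,
    dB, dA, lA, sq⟩ := H
  have hst : St c1 c4 c3 c2 (E n m l) (E (n - 1) m l) (E n (m - 1) l) (E n m (l - 1))
      p1 p4 p3 p2 q1 q4 q3 q2 A B := by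
    rw [hE l m n, hE l m (n - 1), hE l (m - 1) n, hE (l - 1) m n]
    refine ⟨?_, st.h1, st.h4, st.h3, st.h2, ?_, st.cop⟩
    · have := st.he
      omega
    · rw [← st.hs]
      ring
  refine ⟨hst, np1, np4, np3, np2, nq1, nq4, nq3, nq2, nB, ?_, ?_, ?_, ?_, ?_, ?_, ?_, ?_, ?_, dA,
    ?_, ?_⟩
  · rw [hD (l - 1) (m - 1) (n - 1)]; exact dp1
  · rw [hD l m (n - 1)]; exact dp4
  · rw [hD l (m - 1) n]; exact dp3
  · rw [hD (l - 1) m n]; exact dp2
  · rw [hD l m n]; exact dq1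
  · rw [hD (l - 1) (m - 1) n]; exact dq4
  · rw [hD (l - 1) m (n - 1)]; exact dq3
  · rw [hD l (m - 1) (n - 1)]; exact dq2
  · rw [dB]; ring
  · rw [htau]; exact lA
  · have hcls : cls c1 c4 c3 c2 (E n m l) (E (n - 1) m l) (E n (m - 1) l) (E n m (l - 1)) =
        cls c1 c2 c3 c4 (E l m n) (E (l - 1) m n) (E l (m - 1) n) (E l m (n - 1)) := by
      rw [hE l m n, hE l m (n - 1), hE l (m - 1) n, hE (l - 1) m n]
      unfold cls
      ring
    rw [hcls]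
    unfold Fam
    rw [hQt]
    exact sq

end Pool.Agent.Helper28.EF
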