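import Pool.Agent.Helper28.EF.StepOne
import Pool.Agent.Helper28.EF.Perm
import Pool.Agent.Helper28.EF.Base

set_option autoImplicit false

open Polynomial

/-!
# EF-12: all lattice points `l ≥ 2`, `m, n ≥ 0`

Proof. `Gen (-6) 1 2 3` and its permutations by `norm_num`. For `l ≥ 2`, `m, n ≥ 0` the number
`nu = -6 + 5 l + 4 m + 3 n` is at least 4, and `tau = nu` (`l+m+n` even) or `-nu` (odd); `tau` is none of `-6, 1, 2, 3`: in the
even case `tau ≥ 4`; in the odd case `tau ≤ -4`, and `tau = -6` would give `5 l + 4 m + 3 n = 12` with `l ≥ 2`,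
so `4 m + 3 n = 2` or `l ≥ 3`, impossible (`omega`). Start with `base` at `(2,0,0)`; go up in the
first direction by `step_one` (`Int.le_induction`), in the second direction by `perm23`, `step_one` for
`(c1, c3, c2, c4)` and `(m, l, n)`, and `perm23` back; in the third direction with `perm24`. `tau` for the permuted
constants and coordinates is the same number (`ring`, parity of the sum).
-/

namespace Pool.Agent.Helper28.EF

/-- The state exists at `(l, m, n)`. -/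
private def PathP (l m n : ℤ) : Prop :=
  ∃ p1 p2 p3 p4 q1 q2 q3 q4 A B : ℚ[X], Good (-6) 1 2 3 l m n p1 p2 p3 p4 q1 q2 q3 q4 A B

private theorem path_tau1 (l m n : ℤ) : tau (-6) 1 2 3 l m n =
    if (l + m + n) % 2 = 0 then ((-6 + 5 * l + 4 * m + 3 * n : ℤ) : ℚ)
    else ((-(-6 + 5 * l + 4 * m + 3 * n) : ℤ) : ℚ) := by
  unfold tau
  split_ifs <;> push_cast <;> ring

private theorem path_tau2 (l m n : ℤ) : tau (-6) 2 1 3 m l n =
    if (l + m + n) % 2 = 0 then ((-6 + 5 * l + 4 * m + 3 * n : ℤ) : ℚ)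
    else ((-(-6 + 5 * l + 4 * m + 3 * n) : ℤ) : ℚ) := by
  unfold tau
  rw [show m + l + n = l + m + n by ring]
  split_ifs <;> push_cast <;> ring

private theorem path_tau3 (l m n : ℤ) : tau (-6) 3 2 1 n m l =
    if (l + m + n) % 2 = 0 then ((-6 + 5 * l + 4 * m + 3 * n : ℤ) : ℚ)
    else ((-(-6 + 5 * l + 4 * m + 3 * n) : ℤ) : ℚ) := by
  unfold tau
  rw [show n + m + l = l + m + n by ring]
  split_ifs <;> push_cast <;> ring

private theorem path_ne {l m n : ℤ} (hl : 2 ≤ l) (hm : 0 ≤ m) (hn : 0 ≤ n) (k : ℤ)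
    (hk : k = -6 ∨ k = 1 ∨ k = 2 ∨ k = 3) :
    (if (l + m + n) % 2 = 0 then ((-6 + 5 * l + 4 * m + 3 * n : ℤ) : ℚ)
    else ((-(-6 + 5 * l + 4 * m + 3 * n) : ℤ) : ℚ)) ≠ (k : ℚ) := by
  split_ifs with h
  · intro h1
    have h2 : -6 + 5 * l + 4 * m + 3 * n = k := by exact_mod_cast h1
    omega
  · intro h1
    have h2 : -(-6 + 5 * l + 4 * m + 3 * n) = k := by exact_mod_cast h1
    omega

private theorem path_up {c2 c3 c4 : ℚ} (G : Gen (-6) c2 c3 c4) (h0 : -6 + c2 + c3 + c4 = 0)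
    {l m n l' m' n' l'' m'' n'' : ℤ} {k2 k3 k4 : ℤ} (e2 : c2 = k2) (e3 : c3 = k3) (e4 : c4 = k4)
    (hk2 : k2 = -6 ∨ k2 = 1 ∨ k2 = 2 ∨ k2 = 3) (hk3 : k3 = -6 ∨ k3 = 1 ∨ k3 = 2 ∨ k3 = 3)
    (hk4 : k4 = -6 ∨ k4 = 1 ∨ k4 = 2 ∨ k4 = 3)
    (hl : 2 ≤ l') (hm : 0 ≤ m') (hn : 0 ≤ n') (hl' : 2 ≤ l'') (hm' : 0 ≤ m'') (hn' : 0 ≤ n'')
    (ht : tau (-6) c2 c3 c4 l m n =
      if (l' + m' + n') % 2 = 0 then ((-6 + 5 * l' + 4 * m' + 3 * n' : ℤ) : ℚ)
      else ((-(-6 + 5 * l' + 4 * m' + 3 * n') : ℤ) : ℚ))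
    (ht' : tau (-6) c2 c3 c4 (l + 1) m n =
      if (l'' + m'' + n'') % 2 = 0 then ((-6 + 5 * l'' + 4 * m'' + 3 * n'' : ℤ) : ℚ)
      else ((-(-6 + 5 * l'' + 4 * m'' + 3 * n'') : ℤ) : ℚ))
    {p1 p2 p3 p4 q1 q2 q3 q4 A B : ℚ[X]}
    (H : Good (-6) c2 c3 c4 l m n p1 p2 p3 p4 q1 q2 q3 q4 A B) :
    ∃ r1 r2 r3 r4 A' B' : ℚ[X],
      Good (-6) c2 c3 c4 (l + 1) m n q2 q1 r3 r4 r1 r2 p4 p3 A' B' := by
  have e1 : (-6 : ℚ) = ((-6 : ℤ) : ℚ) := by norm_num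
  refine step_one G h0 H ?_ ?_ ?_ ?_ ?_ ?_ ?_ ?_
  · rw [ht, e1]
    exact path_ne hl hm hn _ (Or.inl rfl)
  · rw [ht, e2]
    exact path_ne hl hm hn _ hk2
  · rw [ht, e3]
    exact path_ne hl hm hn _ hk3
  · rw [ht, e4]
    exact path_ne hl hm hn _ hk4
  · rw [ht', e1]
    exact path_ne hl' hm' hn' _ (Or.inl rfl)
  · rw [ht', e2]
    exact path_ne hl' hm' hn' _ hk2
  · rw [ht', e3]
    exact path_ne hl' hm' hn' _ hk3
  · rw [ht', e4]
    exact path_ne hl' hm' hn' _ hk4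

private theorem path_up1 {l m n : ℤ} (hl : 2 ≤ l) (hm : 0 ≤ m) (hn : 0 ≤ n) (h : PathP l m n) :
    PathP (l + 1) m n := by
  obtain ⟨p1, p2, p3, p4, q1, q2, q3, q4, A, B, H⟩ := h
  have G : Gen (-6) 1 2 3 := by
    constructor <;> norm_num
  obtain ⟨r1, r2, r3, r4, A', B', H'⟩ := path_up G (by norm_num) (k2 := 1) (k3 := 2) (k4 := 3)
    (by norm_num) (by norm_num) (by norm_num) (by norm_num) (by norm_num) (by norm_num)
    hl hm hn (by omega : 2 ≤ l + 1) hm hn (path_tau1 l m n) (path_tau1 (l + 1) m n) H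
  exact ⟨_, _, _, _, _, _, _, _, _, _, H'⟩

private theorem path_up2 {l m n : ℤ} (hl : 2 ≤ l) (hm : 0 ≤ m) (hn : 0 ≤ n) (h : PathP l m n) :
    PathP l (m + 1) n := by
  obtain ⟨p1, p2, p3, p4, q1, q2, q3, q4, A, B, H⟩ := h
  have G : Gen (-6) 2 1 3 := by
    constructor <;> norm_num
  obtain ⟨r1, r2, r3, r4, A', B', H'⟩ := path_up G (by norm_num) (k2 := 2) (k3 := 1) (k4 := 3)
    (by norm_num) (by norm_num) (by norm_num) (by norm_num) (by norm_num) (by norm_num)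
    hl hm hn hl (by omega : 0 ≤ m + 1) hn (path_tau2 l m n) (path_tau2 l (m + 1) n) (perm23 H)
  exact ⟨_, _, _, _, _, _, _, _, _, _, perm23 H'⟩

private theorem path_up3 {l m n : ℤ} (hl : 2 ≤ l) (hm : 0 ≤ m) (hn : 0 ≤ n) (h : PathP l m n) :
    PathP l m (n + 1) := by
  obtain ⟨p1, p2, p3, p4, q1, q2, q3, q4, A, B, H⟩ := h
  have G : Gen (-6) 3 2 1 := by
    constructor <;> norm_num
  obtain ⟨r1, r2, r3, r4, A', B', H'⟩ := path_up G (by norm_num) (k2 := 3) (k3 := 2) (k4 := 1)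
    (by norm_num) (by norm_num) (by norm_num) (by norm_num) (by norm_num) (by norm_num)
    hl hm hn hl hm (by omega : 0 ≤ n + 1) (path_tau3 l m n) (path_tau3 l m (n + 1)) (perm24 H)
  exact ⟨_, _, _, _, _, _, _, _, _, _, perm24 H'⟩

theorem good_all (l m n : ℤ) (hl : 2 ≤ l) (hm : 0 ≤ m) (hn : 0 ≤ n) :
    ∃ p1 p2 p3 p4 q1 q2 q3 q4 A B : ℚ[X],
      Good (-6) 1 2 3 l m n p1 p2 p3 p4 q1 q2 q3 q4 A B := by
  have h1 : ∀ l : ℤ, 2 ≤ l → PathP l 0 0 := by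
    intro l hl
    induction l, hl using Int.leInduction with
    | base => exact ⟨_, _, _, _, _, _, _, _, _, _, base⟩
    | succ l hl ih => exact path_up1 hl le_rfl le_rfl ih
  have h2 : ∀ m : ℤ, 0 ≤ m → PathP l m 0 := by
    intro m hm
    induction m, hm using Int.leInduction with
    | base => exact h1 l hl
    | succ m hm ih => exact path_up2 hl hm le_rfl ih
  have h3 : ∀ n : ℤ, 0 ≤ n → PathP l m n := by
    intro n hn
    induction n, hn using Int.leInduction with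
    | base => exact h2 m hm
    | succ n hn ih => exact path_up3 hl hm hn ih
  exact h3 n hn

end Pool.Agent.Helper28.EF
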