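import Pool.Agent.Helper28.EF.Defs

/-!
# EF-06: propagation of the square class

Proof. Let `F = C k (X - c) Y^2` with `k ≠ 0`, `Y ≠ 0`. From `F F' = (X - c)(X - c') Z^2`, cancelling
`X - c ≠ 0`: `C k Y^2 F' = (X - c') Z^2`. So `Y^2 | (X - c') Z^2`, so `Y^2 | ((X - c') Z)^2`, so
`Y | (X - c') Z` (`pow_dvd_pow_iff` for `ℚ[X]`, a normalized gcd monoid / UFD). Write `(X - c') Z = Y g`.
Multiply the relation by `X - c'`: `C k (X - c') Y^2 F' = Y^2 g^2`, so `C k (X - c') F' = g^2`; `X - c'` is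
prime, so `g = (X - c') g'`, and `Z = Y g'` (cancel `X - c'`). Hence
`C k F' = (X - c') g'^2`, i.e. `F' = C k⁻¹ (X - c') g'^2`, and `g' ≠ 0` because `F' ≠ 0`.
-/

set_option autoImplicit false

open Polynomial

namespace Pool.Agent.Helper28.EF

theorem sq_class {c c' : ℚ} {F F' Z : ℚ[X]} (hF : Sq c F) (hF' : F' ≠ 0)
    (h : F * F' = (X - C c) * (X - C c') * Z ^ 2) : Sq c' F' := by
  obtain ⟨k, Y, hk, hY, rfl⟩ := hF
  have hc : (X - C c : ℚ[X]) ≠ 0 := X_sub_C_ne_zero c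
  have hc' : (X - C c' : ℚ[X]) ≠ 0 := X_sub_C_ne_zero c'
  have h1 : C k * Y ^ 2 * F' = (X - C c') * Z ^ 2 := by
    apply mul_left_cancel₀ hc
    linear_combination h
  have h2 : Y ^ 2 ∣ ((X - C c') * Z) ^ 2 := ⟨(X - C c') * (C k * F'), by
    linear_combination -(X - C c') * h1⟩
  rw [IsIntegrallyClosed.pow_dvd_pow_iff two_ne_zero] at h2
  obtain ⟨g, hg⟩ := h2
  have h3 : C k * (X - C c') * F' = g ^ 2 := by
    apply mul_left_cancel₀ (pow_ne_zero 2 hY)
    linear_combination (X - C c') * h1 + ((X - C c') * Z + Y * g) * hg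
  have h4 : (X - C c') ∣ g := by
    apply (prime_X_sub_C c').dvd_of_dvd_pow (n := 2)
    exact ⟨C k * F', by linear_combination -h3⟩
  obtain ⟨g', rfl⟩ := h4
  have h5 : C k * F' = (X - C c') * g' ^ 2 := by
    apply mul_left_cancel₀ hc'
    linear_combination h3
  have h6 : C k⁻¹ * C k = (1 : ℚ[X]) := by
    rw [← C_mul, inv_mul_cancel₀ hk, C_1]
  have h7 : F' = C k⁻¹ * (X - C c') * g' ^ 2 := by
    linear_combination C k⁻¹ * h5 - F' * h6
  refine ⟨k⁻¹, g', inv_ne_zero hk, ?_, h7⟩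
  rintro rfl
  apply hF'
  rw [h7]
  simp

end Pool.Agent.Helper28.EF
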