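import Pool.Agent.Helper28.EF.Defs

set_option autoImplicit false

open Polynomial

/-!
# EF-04: coprimality of the new pair

`A'` is defined by `A' + c1 B' = X^e2 q2 r1`; the four relations `h1' .. h4'` are those of the new state.
Proof. Suppose a prime (irreducible) polynomial `z` divides `A'` and `B'` (use `isCoprime_of_prime_dvd`;
`B' ≠ 0` or `A' ≠ 0` because otherwise `X^(e3+e4) (p3 p4)^2 + X^(e1+e2) (q1 q2)^2 = 0`, which is excluded by
parity of `natDegree` since `p3, p4, q1, q2` are not zero; here `(e3+e4) + (e1+e2) = 1`).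
Then `z` divides `N := X^(e3+e4) (p3 p4)^2 + X^(e1+e2) (q1 q2)^2 = B B'`, and all `X^e2 q2 r1`, `X^e1 q1 r2`,
`X^e4 r3 p4`, `X^e3 r4 p3`.
Facts on the old state: `A, B` coprime, so `P_i = A + c_i B` are pairwise coprime, so no prime divides both
`q1 q2` and `p3 p4`. Let `e_i = 1` be the exponent that is one.
Case `z` associated to `X`. If `e1 + e2 = 1` (so `e3 + e4 = 0`): `X | P1` or `X | P2`, hence `X` does not
divide `P3` or `P4`, so not `p3 p4`; but `X | N` gives `X | (p3 p4)^2`, contradiction. If `e3 + e4 = 1`: the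
same with the roles exchanged.
Case `z` not associated to `X` (so `z` does not divide `X`, nor any power of `X`). If `z | q1 q2`: then from
`z | N`, `z | (p3 p4)^2`, so `z | p3 p4`, contradiction. If `z | p3 p4`: then `z | (q1 q2)^2`,
contradiction. Otherwise `z` divides none of `q1, q2, p3, p4`, so `z | r1` and `z | r2`; subtracting
`h1` and `h2`: `p1 r1 - p2 r2 = C ((c1-c3)(c1-c4) - (c2-c3)(c2-c4)) (q1 q2)` and the constant is
`(c1 - c2)(c1 + c2 - c3 - c4) ≠ 0`, so `z | q1 q2`, contradiction.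
-/

namespace Pool.Agent.Helper28.EF

theorem step_cop {c1 c2 c3 c4 : ℚ} (G : Gen c1 c2 c3 c4) {e1 e2 e3 e4 : ℕ}
    {p1 p2 p3 p4 q1 q2 q3 q4 A B A' B' r1 r2 r3 r4 : ℚ[X]}
    (S : St c1 c2 c3 c4 e1 e2 e3 e4 p1 p2 p3 p4 q1 q2 q3 q4 A B)
    (np3 : p3 ≠ 0) (np4 : p4 ≠ 0) (nq1 : q1 ≠ 0) (nq2 : q2 ≠ 0)
    (hB : B * B' = X ^ (e3 + e4) * (p3 * p4) ^ 2 + X ^ (e1 + e2) * (q1 * q2) ^ 2)
    (h1 : p1 * r1 = C ((c1 - c3) * (c1 - c4)) * (q1 * q2) - 2 * X ^ (e3 + e4) * (p3 * p4))
    (h2 : p2 * r2 = C ((c2 - c3) * (c2 - c4)) * (q1 * q2) - 2 * X ^ (e3 + e4) * (p3 * p4))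
    (h1' : A' + C c1 * B' = X ^ e2 * q2 * r1) (h2' : A' + C c2 * B' = X ^ e1 * q1 * r2)
    (h3' : A' + C c3 * B' = X ^ e4 * r3 * p4) (h4' : A' + C c4 * B' = X ^ e3 * r4 * p3) :
    IsCoprime A' B' := by
  have he := S.he
  have np : p3 * p4 ≠ 0 := mul_ne_zero np3 np4
  have nq : q1 * q2 ≠ 0 := mul_ne_zero nq1 nq2
  -- old state: no common prime divisor of two different `P_i`
  have hold : ∀ z : ℚ[X], Prime z → ∀ c c' : ℚ, c ≠ c' → z ∣ A + C c * B → z ∣ A + C c' * B →
      False := by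
    intro z hz c c' hc h h'
    have h5 : z ∣ C (c - c') * B := by
      have h6 := dvd_sub h h'
      have e : A + C c * B - (A + C c' * B) = C (c - c') * B := by
        rw [C_sub]; ring
      rwa [e] at h6
    have hu : IsUnit (C (c - c') : ℚ[X]) := isUnit_C.2 (isUnit_iff_ne_zero.2 (sub_ne_zero.2 hc))
    have h7 : z ∣ B := (hu.dvd_mul_left).1 h5
    have h8 : z ∣ A := by
      have h9 := dvd_sub h (h7.mul_left (C c))
      rwa [add_sub_cancel_right] at h9
    exact hz.not_isUnit (S.cop.isUnit_of_dvd' h8 h7)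
  have hq : ∀ z : ℚ[X], Prime z → z ∣ q1 * q2 → z ∣ A + C c1 * B ∨ z ∣ A + C c2 * B := by
    intro z hz h
    rcases hz.dvd_or_dvd h with h | h
    · left; rw [S.h1]; exact h.mul_left _
    · right; rw [S.h2]; exact h.mul_left _
  have hp : ∀ z : ℚ[X], Prime z → z ∣ p3 * p4 → z ∣ A + C c3 * B ∨ z ∣ A + C c4 * B := by
    intro z hz h
    rcases hz.dvd_or_dvd h with h | h
    · left; rw [S.h3]; exact (h.mul_left _).mul_right _
    · right; rw [S.h4]; exact (h.mul_left _).mul_right _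
  have hx : ∀ z : ℚ[X], Prime z → (z ∣ A + C c1 * B ∨ z ∣ A + C c2 * B) →
      (z ∣ A + C c3 * B ∨ z ∣ A + C c4 * B) → False := by
    intro z hz h h'
    rcases h with h | h <;> rcases h' with h' | h'
    · exact hold z hz c1 c3 G.h13 h h'
    · exact hold z hz c1 c4 G.h14 h h'
    · exact hold z hz c2 c3 G.h23 h h'
    · exact hold z hz c2 c4 G.h24 h h'
  refine isCoprime_of_prime_dvd ?_ ?_
  · rintro ⟨hA0, hB0⟩
    rw [hB0, mul_zero] at hB
    have h5 : X ^ (e3 + e4) * (p3 * p4) ^ 2 = -(X ^ (e1 + e2) * (q1 * q2) ^ 2) :=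
      eq_neg_of_add_eq_zero_left hB.symm
    have h6 := congrArg natDegree h5
    rw [natDegree_neg, natDegree_mul (pow_ne_zero _ X_ne_zero) (pow_ne_zero _ np),
      natDegree_mul (pow_ne_zero _ X_ne_zero) (pow_ne_zero _ nq), natDegree_X_pow,
      natDegree_X_pow, natDegree_pow, natDegree_pow] at h6
    omega
  · intro z hz hzA hzB
    have hN : z ∣ X ^ (e3 + e4) * (p3 * p4) ^ 2 + X ^ (e1 + e2) * (q1 * q2) ^ 2 := by
      rw [← hB]
      exact hzB.mul_left _
    have hcomb : ∀ c : ℚ, z ∣ A' + C c * B' := fun c => dvd_add hzA (hzB.mul_left _)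
    by_cases hzX : z ∣ X
    · -- `z` is associated to `X`
      have hc : (e1 + e2 = 1 ∧ e3 + e4 = 0) ∨ (e1 + e2 = 0 ∧ e3 + e4 = 1) := by omega
      rcases hc with ⟨h5, h6⟩ | ⟨h5, h6⟩
      · have h7 : z ∣ A + C c1 * B ∨ z ∣ A + C c2 * B := by
          have : e1 = 1 ∨ e2 = 1 := by omega
          rcases this with h | h
          · left; rw [S.h1, h, pow_one]; exact (hzX.mul_right _).mul_right _
          · right; rw [S.h2, h, pow_one]; exact (hzX.mul_right _).mul_right _
        rw [h5, h6, pow_zero, one_mul, pow_one] at hN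
        have h8 : z ∣ (p3 * p4) ^ 2 := (dvd_add_left (hzX.mul_right _)).1 hN
        exact hx z hz h7 (hp z hz (hz.dvd_of_dvd_pow h8))
      · have h7 : z ∣ A + C c3 * B ∨ z ∣ A + C c4 * B := by
          have : e3 = 1 ∨ e4 = 1 := by omega
          rcases this with h | h
          · left; rw [S.h3, h, pow_one]; exact (hzX.mul_right _).mul_right _
          · right; rw [S.h4, h, pow_one]; exact (hzX.mul_right _).mul_right _
        rw [h5, h6, pow_zero, one_mul, pow_one] at hN
        have h8 : z ∣ (q1 * q2) ^ 2 := (dvd_add_right (hzX.mul_right _)).1 hN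
        exact hx z hz (hq z hz (hz.dvd_of_dvd_pow h8)) h7
    · have hXp : ∀ e : ℕ, ¬ z ∣ X ^ e := fun e h => hzX (hz.dvd_of_dvd_pow h)
      have hboth : ∀ (h : z ∣ q1 * q2) (h' : z ∣ p3 * p4), False := fun h h' =>
        hx z hz (hq z hz h) (hp z hz h')
      by_cases h5 : z ∣ q1 * q2
      · have h6 : z ∣ X ^ (e1 + e2) * (q1 * q2) ^ 2 := (dvd_pow h5 two_ne_zero).mul_left _
        have h7 : z ∣ X ^ (e3 + e4) * (p3 * p4) ^ 2 := (dvd_add_left h6).1 hN
        rcases hz.dvd_or_dvd h7 with h | h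
        · exact hXp _ h
        · exact hboth h5 (hz.dvd_of_dvd_pow h)
      · have nz1 : ¬ z ∣ q1 := fun h => h5 (h.mul_right _)
        have nz2 : ¬ z ∣ q2 := fun h => h5 (h.mul_left _)
        have hr1 : z ∣ r1 := by
          have h6 := hcomb c1
          rw [h1'] at h6
          rcases hz.dvd_or_dvd h6 with h | h
          · rcases hz.dvd_or_dvd h with h | h
            · exact absurd h (hXp _)
            · exact absurd h nz2
          · exact h
        have hr2 : z ∣ r2 := by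
          have h6 := hcomb c2
          rw [h2'] at h6
          rcases hz.dvd_or_dvd h6 with h | h
          · rcases hz.dvd_or_dvd h with h | h
            · exact absurd h (hXp _)
            · exact absurd h nz1
          · exact h
        have h6 : z ∣ p1 * r1 - p2 * r2 := dvd_sub (hr1.mul_left _) (hr2.mul_left _)
        have e : p1 * r1 - p2 * r2 = C ((c1 - c2) * (c1 + c2 - (c3 + c4))) * (q1 * q2) := by
          rw [h1, h2]
          have e2 : (C ((c1 - c2) * (c1 + c2 - (c3 + c4))) : ℚ[X]) =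
            C ((c1 - c3) * (c1 - c4)) - C ((c2 - c3) * (c2 - c4)) := by
            rw [← C_sub]
            congr 1
            ring
          rw [e2]
          ring
        rw [e] at h6
        have hu : IsUnit (C ((c1 - c2) * (c1 + c2 - (c3 + c4))) : ℚ[X]) :=
          isUnit_C.2 (isUnit_iff_ne_zero.2 (mul_ne_zero (sub_ne_zero.2 G.h12)
            (sub_ne_zero.2 G.s2)))
        exact h5 ((hu.dvd_mul_left).1 h6)

end Pool.Agent.Helper28.EF
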