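import Pool.Agent.Helper28.EF.Defs

set_option autoImplicit false

open Polynomial

/-!
# EF-01: the divisions of one step

Proof. Write `P_i = A + c_i B = X^{e_i} p_i q_i`, `a = p3 p4`, `b = q1 q2`, `u = X^(e3+e4)`,
`w = X^(e1+e2)` (so `u w = X` by `he`).
Coprimality facts. `A, B` coprime gives: `B` is coprime to every `P_i` (`P_i = A + c_i B`), hence to every
`p_i, q_i`; and `P_i, P_j` are coprime for `i ≠ j` (`P_i - P_j = (c_i - c_j) B` with `c_i ≠ c_j`, so a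
combination of `P_i, P_j` equals `B`, and then also `A`), hence `p_i, q_i` are coprime to `p_j, q_j` for
`i ≠ j`.
(1) `B | u a^2 + w b^2`: multiply by `p1 p2` (coprime to `B`). Modulo `B`: `p1 p2 p3 p4 = - q1 q2 q3 q4` by
`hs`, and `P_i = A`. `p1 p2 u a^2 = u a (p1 p2 p3 p4) = - u a (q1 q2 q3 q4) = - b (P3 P4) = - b A^2`, and
`p1 p2 w b^2 = b (P1 P2) = b A^2`. The sum is 0 modulo `B`. As an exact identity:
`p1 p2 (u a^2 + w b^2) = u a (2 B^2) - b P3 P4 + b P1 P2` and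
`P1 P2 - P3 P4 = B ((c1+c2-c3-c4) A + (c1 c2 - c3 c4) B)`.
(2) `p1 | (c1-c3)(c1-c4) b - 2 u a`: multiply by `q3 q4` (coprime to `p1`):
`q3 q4 b = 2 B^2 - p1 p2 p3 p4` and `u a q3 q4 = P3 P4 = (P1 - (c1-c3) B)(P1 - (c1-c4) B)`, so the
product is `(c1-c3)(c1-c4)(2 B^2 - p1 p2 p3 p4) - 2 (P1 - (c1-c3)B)(P1 - (c1-c4)B)`, which is divisible by
`p1` since `p1 | P1`. (3) the same with `p2`. (4), (5): by the same argument with the roles of
`p3, p4` and `q1, q2` exchanged: multiply `(c3-c1)(c3-c2) a - 2 w b` by `p1 p2` (coprime to `q3`):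
`p1 p2 a = 2 B^2 - q1 q2 q3 q4`, `w b p1 p2 = P1 P2 = (P3 - (c3-c1) B)(P3 - (c3-c2) B)`, `q3 | P3`.
Use `IsCoprime.dvd_of_dvd_mul_left` etc.
-/

namespace Pool.Agent.Helper28.EF

private theorem se_key {c1 c3 c4 : ℚ} {A B p r q u a b s : ℚ[X]}
    (h1 : A + C c1 * B = p * r)
    (hu : u * a * q = (A + C c3 * B) * (A + C c4 * B))
    (hs : p * s + q * b = 2 * B ^ 2) (hc : IsCoprime p q) :
    ∃ r' : ℚ[X], p * r' = C ((c1 - c3) * (c1 - c4)) * b - 2 * u * a := by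
  have h2 : p ∣ q * (C ((c1 - c3) * (c1 - c4)) * b - 2 * u * a) := by
    refine ⟨-(C ((c1 - c3) * (c1 - c4)) * s) -
      2 * r * (A + C c1 * B - C ((c1 - c3) + (c1 - c4)) * B), ?_⟩
    simp only [C_mul, C_sub, C_add] at hu ⊢
    linear_combination (C c1 - C c3) * (C c1 - C c4) * hs - 2 * hu -
      2 * (A + C c1 * B - (C c1 - C c3 + (C c1 - C c4)) * B) * h1
  obtain ⟨r', hr'⟩ := hc.dvd_of_dvd_mul_left h2
  exact ⟨r', hr'.symm⟩

private theorem se_copB {A B : ℚ[X]} (h : IsCoprime A B) (c : ℚ) : IsCoprime (A + C c * B) B :=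
  h.add_mul_right_left (C c)

private theorem se_cop {A B : ℚ[X]} (h : IsCoprime A B) {c d : ℚ} (hcd : c ≠ d) :
    IsCoprime (A + C c * B) (A + C d * B) := by
  have h1 : A + C c * B = C (c - d) * B + 1 * (A + C d * B) := by
    rw [C_sub]
    ring
  rw [h1]
  apply IsCoprime.add_mul_right_left
  have h2 : IsUnit (C (c - d) : ℚ[X]) := isUnit_C.2 (isUnit_iff_ne_zero.2 (sub_ne_zero.2 hcd))
  exact (isCoprime_mul_unit_left_left h2 _ _).2 (se_copB h d).symm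

theorem step_exists {c1 c2 c3 c4 : ℚ} (G : Gen c1 c2 c3 c4) {e1 e2 e3 e4 : ℕ}
    {p1 p2 p3 p4 q1 q2 q3 q4 A B : ℚ[X]}
    (S : St c1 c2 c3 c4 e1 e2 e3 e4 p1 p2 p3 p4 q1 q2 q3 q4 A B) :
    ∃ B' r1 r2 r3 r4 : ℚ[X],
      B * B' = X ^ (e3 + e4) * (p3 * p4) ^ 2 + X ^ (e1 + e2) * (q1 * q2) ^ 2 ∧
      p1 * r1 = C ((c1 - c3) * (c1 - c4)) * (q1 * q2) - 2 * X ^ (e3 + e4) * (p3 * p4) ∧
      p2 * r2 = C ((c2 - c3) * (c2 - c4)) * (q1 * q2) - 2 * X ^ (e3 + e4) * (p3 * p4) ∧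
      q3 * r3 = C ((c3 - c1) * (c3 - c2)) * (p3 * p4) - 2 * X ^ (e1 + e2) * (q1 * q2) ∧
      q4 * r4 = C ((c4 - c1) * (c4 - c2)) * (p3 * p4) - 2 * X ^ (e1 + e2) * (q1 * q2) := by
  have hu : (X : ℚ[X]) ^ (e3 + e4) * (p3 * p4) * (q3 * q4) =
      (A + C c3 * B) * (A + C c4 * B) := by
    rw [S.h3, S.h4, pow_add]
    ring
  have hw : (X : ℚ[X]) ^ (e1 + e2) * (q1 * q2) * (p1 * p2) =
      (A + C c1 * B) * (A + C c2 * B) := by
    rw [S.h1, S.h2, pow_add]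
    ring
  have dp1 : p1 ∣ A + C c1 * B := ⟨X ^ e1 * q1, by rw [S.h1]; ring⟩
  have dp2 : p2 ∣ A + C c2 * B := ⟨X ^ e2 * q2, by rw [S.h2]; ring⟩
  have dq3 : q3 ∣ A + C c3 * B := ⟨X ^ e3 * p3, by rw [S.h3]; ring⟩
  have dq4 : q4 ∣ A + C c4 * B := ⟨X ^ e4 * p4, by rw [S.h4]; ring⟩
  have c13 := se_cop S.cop G.h13
  have c14 := se_cop S.cop G.h14
  have c23 := se_cop S.cop G.h23
  have c24 := se_cop S.cop G.h24
  have k13 : IsCoprime p1 q3 := (c13.of_isCoprime_of_dvd_left dp1).of_isCoprime_of_dvd_right dq3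
  have k14 : IsCoprime p1 q4 := (c14.of_isCoprime_of_dvd_left dp1).of_isCoprime_of_dvd_right dq4
  have k23 : IsCoprime p2 q3 := (c23.of_isCoprime_of_dvd_left dp2).of_isCoprime_of_dvd_right dq3
  have k24 : IsCoprime p2 q4 := (c24.of_isCoprime_of_dvd_left dp2).of_isCoprime_of_dvd_right dq4
  have hB : ∃ B' : ℚ[X], B * B' =
      X ^ (e3 + e4) * (p3 * p4) ^ 2 + X ^ (e1 + e2) * (q1 * q2) ^ 2 := by
    have h2 : B ∣ (p1 * p2) *
        (X ^ (e3 + e4) * (p3 * p4) ^ 2 + X ^ (e1 + e2) * (q1 * q2) ^ 2) := by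
      refine ⟨2 * B * (X ^ (e3 + e4) * (p3 * p4)) + (q1 * q2) *
        ((C c1 + C c2 - C c3 - C c4) * A + (C c1 * C c2 - C c3 * C c4) * B), ?_⟩
      linear_combination (X ^ (e3 + e4) * (p3 * p4)) * S.hs - (q1 * q2) * hu + (q1 * q2) * hw
    have h3 : IsCoprime B (p1 * p2) :=
      (((se_copB S.cop c1).of_isCoprime_of_dvd_left dp1).symm).mul_right
        (((se_copB S.cop c2).of_isCoprime_of_dvd_left dp2).symm)
    obtain ⟨B', hB'⟩ := h3.dvd_of_dvd_mul_left h2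
    exact ⟨B', hB'.symm⟩
  obtain ⟨B', hB'⟩ := hB
  obtain ⟨r1, hr1⟩ := se_key (c1 := c1) (c3 := c3) (c4 := c4) (A := A) (B := B) (p := p1)
    (r := X ^ e1 * q1) (q := q3 * q4) (u := X ^ (e3 + e4)) (a := p3 * p4) (b := q1 * q2)
    (s := p2 * p3 * p4) (by rw [S.h1]; ring) hu (by linear_combination S.hs)
    (k13.mul_right k14)
  obtain ⟨r2, hr2⟩ := se_key (c1 := c2) (c3 := c3) (c4 := c4) (A := A) (B := B) (p := p2)
    (r := X ^ e2 * q2) (q := q3 * q4) (u := X ^ (e3 + e4)) (a := p3 * p4) (b := q1 * q2)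
    (s := p1 * p3 * p4) (by rw [S.h2]; ring) hu (by linear_combination S.hs)
    (k23.mul_right k24)
  obtain ⟨r3, hr3⟩ := se_key (c1 := c3) (c3 := c1) (c4 := c2) (A := A) (B := B) (p := q3)
    (r := X ^ e3 * p3) (q := p1 * p2) (u := X ^ (e1 + e2)) (a := q1 * q2) (b := p3 * p4)
    (s := q1 * q2 * q4) (by rw [S.h3]; ring) hw (by linear_combination S.hs)
    (k13.symm.mul_right k23.symm)
  obtain ⟨r4, hr4⟩ := se_key (c1 := c4) (c3 := c1) (c4 := c2) (A := A) (B := B) (p := q4)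
    (r := X ^ e4 * p4) (q := p1 * p2) (u := X ^ (e1 + e2)) (a := q1 * q2) (b := p3 * p4)
    (s := q1 * q2 * q3) (by rw [S.h4]; ring) hw (by linear_combination S.hs)
    (k14.symm.mul_right k24.symm)
  exact ⟨B', r1, r2, r3, r4, hB', hr1, hr2, hr3, hr4⟩

end Pool.Agent.Helper28.EF
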