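import Pool.Agent.Helper28.EF.Defs

set_option autoImplicit false

open Polynomial

/-!
# EF-02: the three linear relations of the new state

Proof. Notation `P_i = A + c_i B`, `a = p3 p4`, `b = q1 q2`, `α = p1 p2`, `β = q3 q4`,
`u = X^(e3+e4)`, `w = X^(e1+e2)`, `k_ij = c_i - c_j`. Then `P1 P2 = w α b`, `P3 P4 = u a β`,
`α a + b β = 2 B^2`, `P_i - P_j = k_ij B`.
(i) multiply by `p1 p2 B ≠ 0`: the left side is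
`B (P2 (k13 k14 b - 2 u a) - P1 (k23 k24 b - 2 u a)) = b B (k13 k14 P2 - k23 k24 P1) + 2 u a k12 B^2`, the
right side is `k12 α (u a^2 + w b^2) = k12 (u a (2 B^2 - b β) + b P1 P2) = k12 (2 u a B^2 + b (P1 P2 - P3 P4))`,
and `B (k13 k14 P2 - k23 k24 P1) = k12 (P1 P2 - P3 P4)` is an identity in `A, B`.
(ii) multiply by `q3 q4 B`: left `B (P4 (k31 k32 a - 2 w b) - P3 (k41 k42 a - 2 w b))`, right
`k34 β (u a^2 + w b^2) = k34 (a P3 P4 + w b (2 B^2 - α a)) = k34 (2 w b B^2 + a (P3 P4 - P1 P2))`, and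
`B (k31 k32 P4 - k41 k42 P3) = k34 (P3 P4 - P1 P2)` identically.
(iii) multiply by `p1 p2 q3 q4 B`: left
`B (P2 β (k13 k14 b - 2 u a) - P4 α (k31 k32 a - 2 w b))
 = B (k13 k14 P2 β b - k31 k32 P4 α a + 2 P2 P4 (P1 - P3))` (used `u a β = P3 P4`, `w b α = P1 P2`),
right `k13 (α a P3 P4 + β b P1 P2)`; with `k31 k32 = k13 k23` and `2 B^2 = α a + β b` the left side is
`k13 (β b P2 (k14 B + P4) + α a P4 (P2 - k23 B)) = k13 (β b P2 P1 + α a P4 P3)`.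
Each is a `linear_combination` after cancelling the nonzero factor with `mul_left_cancel₀`; substitute
`X ^ (e3 + e4) = X ^ e3 * X ^ e4` by `pow_add`.
-/

namespace Pool.Agent.Helper28.EF

variable {c1 c2 c3 c4 : ℚ} {e1 e2 e3 e4 : ℕ} {p1 p2 p3 p4 q1 q2 q3 q4 A B B' r1 r2 r3 r4 : ℚ[X]}

private theorem gen12 {R : Type} [CommRing R]
    (c1 c2 c3 c4 x1 x2 x3 x4 p1 p2 p3 p4 q1 q2 q3 q4 A B B' r1 r2 : R)
    (E1 : A + c1 * B = x1 * p1 * q1) (E2 : A + c2 * B = x2 * p2 * q2)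
    (E3 : A + c3 * B = x3 * p3 * q3) (E4 : A + c4 * B = x4 * p4 * q4)
    (Es : p1 * p2 * p3 * p4 + q1 * q2 * q3 * q4 = 2 * B ^ 2)
    (hB : B * B' = x3 * x4 * (p3 * p4) ^ 2 + x1 * x2 * (q1 * q2) ^ 2)
    (h1 : p1 * r1 = (c1 - c3) * (c1 - c4) * (q1 * q2) - 2 * (x3 * x4) * (p3 * p4))
    (h2 : p2 * r2 = (c2 - c3) * (c2 - c4) * (q1 * q2) - 2 * (x3 * x4) * (p3 * p4)) :
    p1 * p2 * B * (x2 * q2 * r1 - x1 * q1 * r2) = p1 * p2 * B * ((c1 - c2) * B') := by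
  linear_combination (p2 * B * x2 * q2) * h1 - (p1 * B * x1 * q1) * h2 -
    ((c1 - c2) * p1 * p2) * hB +
    (q1 * q2 * B * (c2 - c3) * (c2 - c4) - 2 * x3 * x4 * p3 * p4 * B +
      (c1 - c2) * q1 * q2 * (x2 * p2 * q2)) * E1 +
    (-(q1 * q2 * B * (c1 - c3) * (c1 - c4)) + 2 * x3 * x4 * p3 * p4 * B +
      (c1 - c2) * q1 * q2 * (A + c1 * B)) * E2 -
    ((c1 - c2) * q1 * q2 * (x4 * p4 * q4)) * E3 - ((c1 - c2) * q1 * q2 * (A + c3 * B)) * E4 -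
    ((c1 - c2) * x3 * x4 * p3 * p4) * Es

private theorem gen34 {R : Type} [CommRing R]
    (c1 c2 c3 c4 x1 x2 x3 x4 p1 p2 p3 p4 q1 q2 q3 q4 A B B' r3 r4 : R)
    (E1 : A + c1 * B = x1 * p1 * q1) (E2 : A + c2 * B = x2 * p2 * q2)
    (E3 : A + c3 * B = x3 * p3 * q3) (E4 : A + c4 * B = x4 * p4 * q4)
    (Es : p1 * p2 * p3 * p4 + q1 * q2 * q3 * q4 = 2 * B ^ 2)
    (hB : B * B' = x3 * x4 * (p3 * p4) ^ 2 + x1 * x2 * (q1 * q2) ^ 2)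
    (h3 : q3 * r3 = (c3 - c1) * (c3 - c2) * (p3 * p4) - 2 * (x1 * x2) * (q1 * q2))
    (h4 : q4 * r4 = (c4 - c1) * (c4 - c2) * (p3 * p4) - 2 * (x1 * x2) * (q1 * q2)) :
    q3 * q4 * B * (x4 * r3 * p4 - x3 * r4 * p3) = q3 * q4 * B * ((c3 - c4) * B') := by
  linear_combination (q4 * B * x4 * p4) * h3 - (q3 * B * x3 * p3) * h4 -
    ((c3 - c4) * q3 * q4) * hB +
    (p3 * p4 * B * (c4 - c1) * (c4 - c2) - 2 * x1 * x2 * q1 * q2 * B +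
      (c3 - c4) * p3 * p4 * (x4 * p4 * q4)) * E3 +
    (-(p3 * p4 * B * (c3 - c1) * (c3 - c2)) + 2 * x1 * x2 * q1 * q2 * B +
      (c3 - c4) * p3 * p4 * (A + c3 * B)) * E4 -
    ((c3 - c4) * p3 * p4 * (x2 * p2 * q2)) * E1 - ((c3 - c4) * p3 * p4 * (A + c1 * B)) * E2 -
    ((c3 - c4) * x1 * x2 * q1 * q2) * Es

private theorem gen13 {R : Type} [CommRing R]
    (c1 c2 c3 c4 x1 x2 x3 x4 p1 p2 p3 p4 q1 q2 q3 q4 A B B' r1 r3 : R)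
    (E1 : A + c1 * B = x1 * p1 * q1) (E2 : A + c2 * B = x2 * p2 * q2)
    (E3 : A + c3 * B = x3 * p3 * q3) (E4 : A + c4 * B = x4 * p4 * q4)
    (Es : p1 * p2 * p3 * p4 + q1 * q2 * q3 * q4 = 2 * B ^ 2)
    (hB : B * B' = x3 * x4 * (p3 * p4) ^ 2 + x1 * x2 * (q1 * q2) ^ 2)
    (h1 : p1 * r1 = (c1 - c3) * (c1 - c4) * (q1 * q2) - 2 * (x3 * x4) * (p3 * p4))
    (h3 : q3 * r3 = (c3 - c1) * (c3 - c2) * (p3 * p4) - 2 * (x1 * x2) * (q1 * q2)) :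
    p1 * p2 * q3 * q4 * B * (x2 * q2 * r1 - x4 * r3 * p4) =
      p1 * p2 * q3 * q4 * B * ((c1 - c3) * B') := by
  linear_combination (x2 * q2 * p2 * q3 * q4 * B) * h1 - (x4 * p4 * q4 * p1 * p2 * B) * h3 -
    ((c1 - c3) * p1 * p2 * q3 * q4) * hB +
    (-(2 * B * (x2 * p2 * q2) * (x4 * p4 * q4)) +
      (c1 - c3) * q1 * q2 * q3 * q4 * (x2 * p2 * q2)) * E1 +
    (2 * B * (x2 * p2 * q2) * (x4 * p4 * q4) +
      (c1 - c3) * p1 * p2 * p3 * p4 * (x4 * p4 * q4)) * E3 -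
    ((c1 - c3) * q1 * q2 * q3 * q4 * (x2 * p2 * q2)) * E4 -
    ((c1 - c3) * p1 * p2 * p3 * p4 * (x4 * p4 * q4)) * E2 -
    ((c1 - c3) * (x2 * p2 * q2) * (x4 * p4 * q4)) * Es

theorem rel12 (S : St c1 c2 c3 c4 e1 e2 e3 e4 p1 p2 p3 p4 q1 q2 q3 q4 A B)
    (np1 : p1 ≠ 0) (np2 : p2 ≠ 0) (nB : B ≠ 0)
    (hB : B * B' = X ^ (e3 + e4) * (p3 * p4) ^ 2 + X ^ (e1 + e2) * (q1 * q2) ^ 2)
    (h1 : p1 * r1 = C ((c1 - c3) * (c1 - c4)) * (q1 * q2) - 2 * X ^ (e3 + e4) * (p3 * p4))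
    (h2 : p2 * r2 = C ((c2 - c3) * (c2 - c4)) * (q1 * q2) - 2 * X ^ (e3 + e4) * (p3 * p4)) :
    X ^ e2 * q2 * r1 - X ^ e1 * q1 * r2 = C (c1 - c2) * B' := by
  rw [pow_add, pow_add] at hB
  rw [pow_add, C_mul, C_sub, C_sub] at h1 h2
  refine mul_left_cancel₀ (mul_ne_zero (mul_ne_zero np1 np2) nB) ?_
  rw [C_sub]
  exact gen12 (C c1) (C c2) (C c3) (C c4) (X ^ e1) (X ^ e2) (X ^ e3) (X ^ e4) p1 p2 p3 p4 q1 q2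
    q3 q4 A B B' r1 r2 S.h1 S.h2 S.h3 S.h4 S.hs hB h1 h2

theorem rel34 (S : St c1 c2 c3 c4 e1 e2 e3 e4 p1 p2 p3 p4 q1 q2 q3 q4 A B)
    (nq3 : q3 ≠ 0) (nq4 : q4 ≠ 0) (nB : B ≠ 0)
    (hB : B * B' = X ^ (e3 + e4) * (p3 * p4) ^ 2 + X ^ (e1 + e2) * (q1 * q2) ^ 2)
    (h3 : q3 * r3 = C ((c3 - c1) * (c3 - c2)) * (p3 * p4) - 2 * X ^ (e1 + e2) * (q1 * q2))
    (h4 : q4 * r4 = C ((c4 - c1) * (c4 - c2)) * (p3 * p4) - 2 * X ^ (e1 + e2) * (q1 * q2)) :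
    X ^ e4 * r3 * p4 - X ^ e3 * r4 * p3 = C (c3 - c4) * B' := by
  rw [pow_add, pow_add] at hB
  rw [pow_add, C_mul, C_sub, C_sub] at h3 h4
  refine mul_left_cancel₀ (mul_ne_zero (mul_ne_zero nq3 nq4) nB) ?_
  rw [C_sub]
  exact gen34 (C c1) (C c2) (C c3) (C c4) (X ^ e1) (X ^ e2) (X ^ e3) (X ^ e4) p1 p2 p3 p4 q1 q2
    q3 q4 A B B' r3 r4 S.h1 S.h2 S.h3 S.h4 S.hs hB h3 h4

theorem rel13 (S : St c1 c2 c3 c4 e1 e2 e3 e4 p1 p2 p3 p4 q1 q2 q3 q4 A B)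
    (np1 : p1 ≠ 0) (np2 : p2 ≠ 0) (nq3 : q3 ≠ 0) (nq4 : q4 ≠ 0) (nB : B ≠ 0)
    (hB : B * B' = X ^ (e3 + e4) * (p3 * p4) ^ 2 + X ^ (e1 + e2) * (q1 * q2) ^ 2)
    (h1 : p1 * r1 = C ((c1 - c3) * (c1 - c4)) * (q1 * q2) - 2 * X ^ (e3 + e4) * (p3 * p4))
    (h3 : q3 * r3 = C ((c3 - c1) * (c3 - c2)) * (p3 * p4) - 2 * X ^ (e1 + e2) * (q1 * q2)) :
    X ^ e2 * q2 * r1 - X ^ e4 * r3 * p4 = C (c1 - c3) * B' := by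
  rw [pow_add, pow_add] at hB
  rw [pow_add, C_mul, C_sub, C_sub] at h1 h3
  refine mul_left_cancel₀ (mul_ne_zero (mul_ne_zero (mul_ne_zero (mul_ne_zero np1 np2) nq3) nq4)
    nB) ?_
  rw [C_sub]
  exact gen13 (C c1) (C c2) (C c3) (C c4) (X ^ e1) (X ^ e2) (X ^ e3) (X ^ e4) p1 p2 p3 p4 q1 q2
    q3 q4 A B B' r1 r3 S.h1 S.h2 S.h3 S.h4 S.hs hB h1 h3

end Pool.Agent.Helper28.EF
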