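import Pool.Agent.Helper28.EF.Defs

set_option autoImplicit false

open Polynomial

/-!
# EF-03: the quadratic relation of the new state

Proof. Notation as in `StepRel.lean`: `a = p3 p4`, `b = q1 q2`, `α = p1 p2`, `β = q3 q4`,
`u = X^(e3+e4)`, `w = X^(e1+e2)`, `R = P1 P2 = w α b`, `S = P3 P4 = u a β`, `α a + b β = 2 B^2`,
`K1 = (c1-c3)(c1-c4)`, `K2 = (c2-c3)(c2-c4)`, `K3 = (c3-c1)(c3-c2)`, `K4 = (c4-c1)(c4-c2)`; `K1 K2 = K3 K4`.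
Multiply the claim by `α β B^2 ≠ 0`. The left side becomes `B^2` times
`L := α b (K3 a - 2 w b)(K4 a - 2 w b) + β a (K1 b - 2 u a)(K2 b - 2 u a)
    = 2 K1 K2 a b B^2 - 2 a b ((K3+K4) R + (K1+K2) S) + 4 (w b^2 R + u a^2 S)`
(used `α a + β b = 2 B^2`, `w α b = R`, `u a β = S`); the right side becomes
`2 α β (B B')^2 = 2 α β (u a^2 + w b^2)^2 = 2 (S α a u a^2 + R β b w b^2 + 2 R S a b)`.
Since `4 B^2 (w b^2 R + u a^2 S) = 2 (α a + β b)(w b^2 R + u a^2 S)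
 = 2 (α a u a^2 S + β b w b^2 R + a b R^2 + a b S^2)`, the difference of the two sides is
`2 a b (K1 K2 B^4 - B^2 ((K3+K4) R + (K1+K2) S) + (R - S)^2)`, and this is zero: it is an identity in `A, B`
after `R = (A + c1 B)(A + c2 B)`, `S = (A + c3 B)(A + c4 B)`
(`R - S = B ((c1+c2-c3-c4) A + (c1 c2 - c3 c4) B)`).
-/

namespace Pool.Agent.Helper28.EF

private lemma stepSq_key {R : Type*} [CommRing R] (a b x y u w A B k1 k2 k3 k4 : R)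
    (hR : w * x * b = (A + k1 * B) * (A + k2 * B)) (hS : u * a * y = (A + k3 * B) * (A + k4 * B))
    (hs : x * a + b * y = 2 * B ^ 2) :
    B ^ 2 * (x * b * ((k3 - k1) * (k3 - k2) * a - 2 * w * b) *
          ((k4 - k1) * (k4 - k2) * a - 2 * w * b) +
        y * a * ((k1 - k3) * (k1 - k4) * b - 2 * u * a) *
          ((k2 - k3) * (k2 - k4) * b - 2 * u * a)) =
      2 * x * y * (u * a ^ 2 + w * b ^ 2) ^ 2 := by
  linear_combination ((k1 - k3) * (k1 - k4) * (k2 - k3) * (k2 - k4) * a * b * B ^ 2 -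
      2 * (w * b ^ 2 * (w * x * b) + u * a ^ 2 * (u * a * y))) * hs +
    (2 * a * b * (-(B ^ 2 * ((k3 - k1) * (k3 - k2) + (k4 - k1) * (k4 - k2))) +
      (w * x * b - u * a * y + (A + k1 * B) * (A + k2 * B) - (A + k3 * B) * (A + k4 * B)))) * hR +
    (2 * a * b * (-(B ^ 2 * ((k1 - k3) * (k1 - k4) + (k2 - k3) * (k2 - k4))) -
      (w * x * b - u * a * y + (A + k1 * B) * (A + k2 * B) - (A + k3 * B) * (A + k4 * B)))) * hS

theorem step_sq {c1 c2 c3 c4 : ℚ} {e1 e2 e3 e4 : ℕ}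
    {p1 p2 p3 p4 q1 q2 q3 q4 A B B' r1 r2 r3 r4 : ℚ[X]}
    (S : St c1 c2 c3 c4 e1 e2 e3 e4 p1 p2 p3 p4 q1 q2 q3 q4 A B)
    (np1 : p1 ≠ 0) (np2 : p2 ≠ 0) (nq3 : q3 ≠ 0) (nq4 : q4 ≠ 0) (nB : B ≠ 0)
    (hB : B * B' = X ^ (e3 + e4) * (p3 * p4) ^ 2 + X ^ (e1 + e2) * (q1 * q2) ^ 2)
    (h1 : p1 * r1 = C ((c1 - c3) * (c1 - c4)) * (q1 * q2) - 2 * X ^ (e3 + e4) * (p3 * p4))
    (h2 : p2 * r2 = C ((c2 - c3) * (c2 - c4)) * (q1 * q2) - 2 * X ^ (e3 + e4) * (p3 * p4))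
    (h3 : q3 * r3 = C ((c3 - c1) * (c3 - c2)) * (p3 * p4) - 2 * X ^ (e1 + e2) * (q1 * q2))
    (h4 : q4 * r4 = C ((c4 - c1) * (c4 - c2)) * (p3 * p4) - 2 * X ^ (e1 + e2) * (q1 * q2)) :
    q2 * q1 * r3 * r4 + r1 * r2 * p4 * p3 = 2 * B' ^ 2 := by
  have hR : X ^ (e1 + e2) * (p1 * p2) * (q1 * q2) = (A + C c1 * B) * (A + C c2 * B) := by
    rw [S.h1, S.h2, pow_add]
    ring
  have hS : X ^ (e3 + e4) * (p3 * p4) * (q3 * q4) = (A + C c3 * B) * (A + C c4 * B) := by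
    rw [S.h3, S.h4, pow_add]
    ring
  have hs : p1 * p2 * (p3 * p4) + q1 * q2 * (q3 * q4) = 2 * B ^ 2 := by
    rw [← S.hs]
    ring
  have key := stepSq_key (p3 * p4) (q1 * q2) (p1 * p2) (q3 * q4) (X ^ (e3 + e4)) (X ^ (e1 + e2))
    A B (C c1) (C c2) (C c3) (C c4) hR hS hs
  simp only [map_mul, map_sub] at h1 h2 h3 h4
  have hne : p1 * p2 * (q3 * q4) * B ^ 2 ≠ 0 :=
    mul_ne_zero (mul_ne_zero (mul_ne_zero np1 np2) (mul_ne_zero nq3 nq4)) (pow_ne_zero 2 nB)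
  apply mul_left_cancel₀ hne
  generalize (X : ℚ[X]) ^ (e3 + e4) = u at *
  generalize (X : ℚ[X]) ^ (e1 + e2) = w at *
  linear_combination (B ^ 2 * (p1 * p2) * (q1 * q2) * (q4 * r4)) * h3 +
    (B ^ 2 * (p1 * p2) * (q1 * q2) *
      ((C c3 - C c1) * (C c3 - C c2) * (p3 * p4) - 2 * w * (q1 * q2))) * h4 +
    (B ^ 2 * (q3 * q4) * (p3 * p4) * (p2 * r2)) * h1 +
    (B ^ 2 * (q3 * q4) * (p3 * p4) *
      ((C c1 - C c3) * (C c1 - C c4) * (q1 * q2) - 2 * u * (p3 * p4))) * h2 +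
    key - (2 * (p1 * p2) * (q3 * q4) *
      (B * B' + (u * (p3 * p4) ^ 2 + w * (q1 * q2) ^ 2))) * hB

end Pool.Agent.Helper28.EF
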