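import Pool.Agent.Helper28.EF.Defs

set_option autoImplicit false

open Polynomial

/-!
# EF-05: Vieta relations and the product formula for `Fam`

Proof of `vieta`. `(A' + c1 B')(A + c1 B) = X^e2 q2 r1 X^e1 p1 q1 = X^(e1+e2) (q1 q2) (p1 r1)
 = X^(e1+e2) (q1 q2) ((c1-c3)(c1-c4) q1 q2 - 2 X^(e3+e4) p3 p4)`; by `he`, `X^(e1+e2) X^(e3+e4) = X`. In the
same way `(A' + c2 B')(A + c2 B) = X^(e1+e2) (q1 q2) ((c2-c3)(c2-c4) q1 q2) - 2 X (q1 q2)(p3 p4)`. Put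
`V = A' B + A B'`, `N = B B'`. Subtracting: `(c1-c2) V + (c1^2-c2^2) N = (c1-c2)(c1+c2-c3-c4) X^(e1+e2) (q1 q2)^2`;
cancel `C (c1 - c2)` and insert `N`. The second claim follows from the first relation and `V`, `N`.
Proof of `fam_mul`. With `U = Qt`, `(A(U) + t B(U)) (A'(U) + t B'(U)) = AA' + t V + t^2 N` at `U`, which by
`vieta` equals `u a^2 (t-c1)(t-c2) + w b^2 (t-c3)(t-c4) - 2 U a b` with `a = p3 p4`, `b = q1 q2` (composed
with `U`), `u = U^(e3+e4)`, `w = U^(e1+e2)`. If `e3 + e4 = 0`, then `w = U = (t-c1)(t-c2)(t-c3)(t-c4)` and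
this is `(t-c1)(t-c2) (a - (t-c3)(t-c4) b)^2`. If `e1 + e2 = 0`, then `u = U` and it is
`(t-c3)(t-c4) ((t-c1)(t-c2) a - b)^2`. (Compose the polynomial identities with `Qt`: use
`congrArg (fun f => f.comp (Qt c1 c2 c3 c4))` and `simp` with `mul_comp`, `add_comp`, `pow_comp`, `X_comp`, `C_comp`.)
-/

namespace Pool.Agent.Helper28.EF

theorem vieta {c1 c2 c3 c4 : ℚ} (G : Gen c1 c2 c3 c4) {e1 e2 e3 e4 : ℕ}
    {p1 p2 p3 p4 q1 q2 q3 q4 A B A' B' r1 r2 : ℚ[X]}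
    (S : St c1 c2 c3 c4 e1 e2 e3 e4 p1 p2 p3 p4 q1 q2 q3 q4 A B)
    (hB : B * B' = X ^ (e3 + e4) * (p3 * p4) ^ 2 + X ^ (e1 + e2) * (q1 * q2) ^ 2)
    (h1 : p1 * r1 = C ((c1 - c3) * (c1 - c4)) * (q1 * q2) - 2 * X ^ (e3 + e4) * (p3 * p4))
    (h2 : p2 * r2 = C ((c2 - c3) * (c2 - c4)) * (q1 * q2) - 2 * X ^ (e3 + e4) * (p3 * p4))
    (h1' : A' + C c1 * B' = X ^ e2 * q2 * r1) (h2' : A' + C c2 * B' = X ^ e1 * q1 * r2) :
    A' * B + A * B' = -(C (c1 + c2) * (X ^ (e3 + e4) * (p3 * p4) ^ 2) +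
      C (c3 + c4) * (X ^ (e1 + e2) * (q1 * q2) ^ 2)) ∧
    A * A' = C (c1 * c2) * (X ^ (e3 + e4) * (p3 * p4) ^ 2) +
      C (c3 * c4) * (X ^ (e1 + e2) * (q1 * q2) ^ 2) - 2 * X * (p3 * p4) * (q1 * q2) := by
  have hX : (X : ℚ[X]) ^ (e1 + e2) * X ^ (e3 + e4) = X := by
    have h := S.he
    rw [← pow_add, show e1 + e2 + (e3 + e4) = 1 by omega, pow_one]
  have k1 : (A' + C c1 * B') * (A + C c1 * B) =
      C ((c1 - c3) * (c1 - c4)) * (X ^ (e1 + e2) * (q1 * q2) ^ 2) -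
        2 * X * (p3 * p4) * (q1 * q2) := by
    have h3 : (A' + C c1 * B') * (A + C c1 * B) = X ^ (e1 + e2) * (q1 * q2) * (p1 * r1) := by
      rw [h1', S.h1, pow_add]
      ring
    rw [h3, h1]
    linear_combination (-2 * (p3 * p4) * (q1 * q2)) * hX
  have k2 : (A' + C c2 * B') * (A + C c2 * B) =
      C ((c2 - c3) * (c2 - c4)) * (X ^ (e1 + e2) * (q1 * q2) ^ 2) -
        2 * X * (p3 * p4) * (q1 * q2) := by
    have h3 : (A' + C c2 * B') * (A + C c2 * B) = X ^ (e1 + e2) * (q1 * q2) * (p2 * r2) := by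
      rw [h2', S.h2, pow_add]
      ring
    rw [h3, h2]
    linear_combination (-2 * (p3 * p4) * (q1 * q2)) * hX
  have hc : (C c1 - C c2 : ℚ[X]) ≠ 0 := by
    rw [← C_sub]
    exact C_ne_zero.2 (sub_ne_zero.2 G.h12)
  simp only [map_sub, map_mul, map_add] at k1 k2 ⊢
  have hV : A' * B + A * B' = -((C c1 + C c2) * (X ^ (e3 + e4) * (p3 * p4) ^ 2) +
      (C c3 + C c4) * (X ^ (e1 + e2) * (q1 * q2) ^ 2)) := by
    apply mul_left_cancel₀ hc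
    linear_combination k1 - k2 - (C c1 ^ 2 - C c2 ^ 2) * hB
  refine ⟨hV, ?_⟩
  linear_combination k1 - C c1 * hV - C c1 ^ 2 * hB

theorem fam_mul {c1 c2 c3 c4 : ℚ} {e1 e2 e3 e4 : ℕ} (he : e1 + e2 + e3 + e4 = 1)
    {p3 p4 q1 q2 A B A' B' : ℚ[X]}
    (hB : B * B' = X ^ (e3 + e4) * (p3 * p4) ^ 2 + X ^ (e1 + e2) * (q1 * q2) ^ 2)
    (hV : A' * B + A * B' = -(C (c1 + c2) * (X ^ (e3 + e4) * (p3 * p4) ^ 2) +
      C (c3 + c4) * (X ^ (e1 + e2) * (q1 * q2) ^ 2)))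
    (hA : A * A' = C (c1 * c2) * (X ^ (e3 + e4) * (p3 * p4) ^ 2) +
      C (c3 * c4) * (X ^ (e1 + e2) * (q1 * q2) ^ 2) - 2 * X * (p3 * p4) * (q1 * q2)) :
    (e3 + e4 = 0 → ∃ Z : ℚ[X], Fam c1 c2 c3 c4 A B * Fam c1 c2 c3 c4 A' B' =
      (X - C c1) * (X - C c2) * Z ^ 2) ∧
    (e1 + e2 = 0 → ∃ Z : ℚ[X], Fam c1 c2 c3 c4 A B * Fam c1 c2 c3 c4 A' B' =
      (X - C c3) * (X - C c4) * Z ^ 2) := by
  unfold Fam
  obtain ⟨U, hU⟩ : ∃ U, U = Qt c1 c2 c3 c4 := ⟨_, rfl⟩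
  have hU' : U = (X - C c1) * (X - C c2) * (X - C c3) * (X - C c4) := hU
  have kB := congrArg (fun f : ℚ[X] => f.comp U) hB
  have kV := congrArg (fun f : ℚ[X] => f.comp U) hV
  have kA := congrArg (fun f : ℚ[X] => f.comp U) hA
  simp only [mul_comp, add_comp, sub_comp, neg_comp, pow_comp, X_comp, C_comp, ofNat_comp,
    C_add, C_mul] at kB kV kA
  rw [← hU]
  constructor
  · intro h0
    have h1 : e1 + e2 = 1 := by omega
    rw [h0, h1, pow_zero, pow_one] at kB kV kA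
    refine ⟨p3.comp U * p4.comp U - (X - C c3) * (X - C c4) * (q1.comp U * q2.comp U), ?_⟩
    linear_combination kA + X * kV + X ^ 2 * kB +
      ((q1.comp U * q2.comp U) ^ 2 * ((X - C c3) * (X - C c4)) -
        2 * (p3.comp U * p4.comp U) * (q1.comp U * q2.comp U)) * hU'
  · intro h0
    have h1 : e3 + e4 = 1 := by omega
    rw [h0, h1, pow_zero, pow_one] at kB kV kA
    refine ⟨(X - C c1) * (X - C c2) * (p3.comp U * p4.comp U) - q1.comp U * q2.comp U, ?_⟩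
    linear_combination kA + X * kV + X ^ 2 * kB +
      ((p3.comp U * p4.comp U) ^ 2 * ((X - C c1) * (X - C c2)) -
        2 * (p3.comp U * p4.comp U) * (q1.comp U * q2.comp U)) * hU'

end Pool.Agent.Helper28.EF
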