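import Pool.Agent.Helper28.EF.StepExists
import Pool.Agent.Helper28.EF.StepRel
import Pool.Agent.Helper28.EF.StepSq
import Pool.Agent.Helper28.EF.StepCop
import Pool.Agent.Helper28.EF.StepVieta
import Pool.Agent.Helper28.EF.SqClass
import Pool.Agent.Helper28.EF.Arith
import Pool.Agent.Helper28.EF.Infinity

set_option autoImplicit false

open Polynomial

/-!
# EF-11: one step in the first direction

Proof. Take `B', r1..r4` from `step_exists` and `A' := X^e2 q2 r1 - C c1 B'` where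
`e1 = E l m n`, `e2 = E (l-1) m n`, `e3 = E l (m-1) n`, `e4 = E l m (n-1)`. `rel12, rel13, rel34` give
`A' + c2 B' = X^e1 q1 r2`, `A' + c3 B' = X^e4 r3 p4`, `A' + c4 B' = X^e3 r4 p3`; `step_sq` gives `hs`, `step_cop`
the coprimality. The exponents of the new state are
`E (l+1) m n = e2`, `E (l+1-1) m n = e1`, `E (l+1) (m-1) n = e4`, `E (l+1) m (n-1) = e3` (EF-07).
Degrees: `hpar` comes from `dp_i`, `dq_i`, `dB` and `Dl_even` / `Dl_odd`. `inf_step` gives `B' ≠ 0`, `dA`, the degree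
of `B'` (with `Dl_face`) and `lA`: for `l+m+n` even, `τ' = c1 + c2 - τ`, which is
`tau c1 c2 c3 c4 (l+1) m n` (definition of `tau`, `l+1+m+n` odd); for `l+m+n` odd, `τ' = c3 + c4 - τ
 = -(c1+c2) - τ` by `h0`, again `tau (l+1) m n`. Then `deg_prod` for the new pair (using `t1' .. t4'`) gives that all
new polynomials are nonzero and `e_i' + natDegree p_i' + natDegree q_i' = natDegree B'`, from which the degrees of
`r1, r2, r3, r4` follow by `Dl_opp1 .. Dl_opp4` at `(l+1, m, n)`. The new `p1 = q2, p2 = q1, q3 = p4, q4 = p3` have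
the right degrees since `l + 1 - 1 = l`.
Square class: `fam_mul` and `sq_class`. If `e1 = 1` the old class constant is `c1` and the new one is `c2`; if
`e2 = 1`: `c2`, `c1`; `e3 = 1`: `c3`, `c4`; `e4 = 1`: `c4`, `c3`. `Fam A' B' ≠ 0`: `Fam A' B' =
A'(Pi) + t B'(Pi)` has the coefficient `lc(B') ≠ 0` at `4 natDegree B' + 1` (`natDegree (Qt) = 4`, `Qt` monic), since
`natDegree (A'.comp Qt) ≤ 4 natDegree B'`.
-/

namespace Pool.Agent.Helper28.EF

theorem natDegree_Qt (c1 c2 c3 c4 : ℚ) : (Qt c1 c2 c3 c4).natDegree = 4 := by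
  have h := monic_X_sub_C c1
  have h2 := monic_X_sub_C c2
  have h3 := monic_X_sub_C c3
  have h4 := monic_X_sub_C c4
  unfold Qt
  rw [((h.mul h2).mul h3).natDegree_mul h4, (h.mul h2).natDegree_mul h3, h.natDegree_mul h2]
  simp

theorem fam_ne_zero {c1 c2 c3 c4 : ℚ} {A B : ℚ[X]} (nB : B ≠ 0) (dA : A.natDegree ≤ B.natDegree) :
    Fam c1 c2 c3 c4 A B ≠ 0 := by
  intro h
  unfold Fam at h
  have h1 : A.comp (Qt c1 c2 c3 c4) = -(X * B.comp (Qt c1 c2 c3 c4)) := by
    linear_combination h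
  have h2 : (A.comp (Qt c1 c2 c3 c4)).natDegree = A.natDegree * 4 := by
    rw [natDegree_comp, natDegree_Qt]
  have h3 : (B.comp (Qt c1 c2 c3 c4)).natDegree = B.natDegree * 4 := by
    rw [natDegree_comp, natDegree_Qt]
  have h4 : B.comp (Qt c1 c2 c3 c4) ≠ 0 := by
    intro h5
    rcases comp_eq_zero_iff.1 h5 with h6 | h6
    · exact nB h6
    · have h7 := natDegree_Qt c1 c2 c3 c4
      rw [h6.2] at h7
      simp at h7
  have h5 : (-(X * B.comp (Qt c1 c2 c3 c4))).natDegree = 1 + B.natDegree * 4 := by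
    rw [natDegree_neg, natDegree_mul X_ne_zero h4, h3, natDegree_X]
  rw [← h1, h2] at h5
  omega

theorem step_one {c1 c2 c3 c4 : ℚ} (G : Gen c1 c2 c3 c4) (h0 : c1 + c2 + c3 + c4 = 0) {l m n : ℤ}
    {p1 p2 p3 p4 q1 q2 q3 q4 A B : ℚ[X]}
    (H : Good c1 c2 c3 c4 l m n p1 p2 p3 p4 q1 q2 q3 q4 A B)
    (t1 : tau c1 c2 c3 c4 l m n ≠ c1) (t2 : tau c1 c2 c3 c4 l m n ≠ c2)
    (t3 : tau c1 c2 c3 c4 l m n ≠ c3) (t4 : tau c1 c2 c3 c4 l m n ≠ c4)
    (t1' : tau c1 c2 c3 c4 (l + 1) m n ≠ c1) (t2' : tau c1 c2 c3 c4 (l + 1) m n ≠ c2)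
    (t3' : tau c1 c2 c3 c4 (l + 1) m n ≠ c3) (t4' : tau c1 c2 c3 c4 (l + 1) m n ≠ c4) :
    ∃ r1 r2 r3 r4 A' B' : ℚ[X],
      Good c1 c2 c3 c4 (l + 1) m n q2 q1 r3 r4 r1 r2 p4 p3 A' B' := by
  obtain ⟨B', r1, r2, r3, r4, hB, h1, h2, h3, h4⟩ := step_exists G H.st
  have R12 := rel12 H.st H.np1 H.np2 H.nB hB h1 h2
  have R34 := rel34 H.st H.nq3 H.nq4 H.nB hB h3 h4
  have R13 := rel13 H.st H.np1 H.np2 H.nq3 H.nq4 H.nB hB h1 h3
  obtain ⟨A', hA'⟩ : ∃ A' : ℚ[X], A' = X ^ E (l - 1) m n * q2 * r1 - C c1 * B' := ⟨_, rfl⟩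
  have h1' : A' + C c1 * B' = X ^ E (l - 1) m n * q2 * r1 := by rw [hA']; ring
  have h2' : A' + C c2 * B' = X ^ E l m n * q1 * r2 := by
    rw [hA']; rw [C_sub] at R12; linear_combination R12
  have h3' : A' + C c3 * B' = X ^ E l m (n - 1) * r3 * p4 := by
    rw [hA']; rw [C_sub] at R13; linear_combination R13
  have h4' : A' + C c4 * B' = X ^ E l (m - 1) n * r4 * p3 := by
    rw [C_sub] at R34; linear_combination h3' + R34
  have hs' := step_sq H.st H.np1 H.np2 H.nq3 H.nq4 H.nB hB h1 h2 h3 h4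
  have hcop := step_cop G H.st H.np3 H.np4 H.nq1 H.nq2 hB h1 h2 h1' h2' h3' h4'
  obtain ⟨hV, hAA⟩ := vieta G H.st hB h1 h2 h1' h2'
  have hpar : p1.natDegree + p2.natDegree + p3.natDegree + p4.natDegree = 2 * B.natDegree ∨
      q1.natDegree + q2.natDegree + q3.natDegree + q4.natDegree = 2 * B.natDegree := by
    by_cases hp : (l + m + n) % 2 = 0
    · left
      have a := Dl_even l m n hp
      have a1 := H.dp1
      have a2 := H.dp2
      have a3 := H.dp3
      have a4 := H.dp4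
      have a5 := H.dB
      have : ((p1.natDegree + p2.natDegree + p3.natDegree + p4.natDegree : ℕ) : ℤ) =
          ((2 * B.natDegree : ℕ) : ℤ) := by
        push_cast
        linarith
      exact_mod_cast this
    · right
      have a := Dl_odd l m n hp
      have a1 := H.dq1
      have a2 := H.dq2
      have a3 := H.dq3
      have a4 := H.dq4
      have a5 := H.dB
      have : ((q1.natDegree + q2.natDegree + q3.natDegree + q4.natDegree : ℕ) : ℤ) =
          ((2 * B.natDegree : ℕ) : ℤ) := by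
        push_cast
        linarith
      exact_mod_cast this
  obtain ⟨nB', dA', dBB, lE, lO⟩ := inf_step H.st H.nB H.dA H.lA t1 t2 t3 t4 hB hV hpar
  have dB' : 2 * (B'.natDegree : ℤ) = (l + 1) * (l + 1 - 1) + m * (m - 1) + n * (n - 1) := by
    have a := Dl_face l m n
    have a1 := H.dp3
    have a2 := H.dp4
    have a3 := H.dq1
    have a4 := H.dq2
    have a5 := H.dB
    have a6 : ((B.natDegree + B'.natDegree : ℕ) : ℤ) =
        ((1 + p3.natDegree + p4.natDegree + q1.natDegree + q2.natDegree : ℕ) : ℤ) := by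
      rw [dBB]
    push_cast at a6
    linarith
  have lA' : A'.coeff B'.natDegree = - tau c1 c2 c3 c4 (l + 1) m n * B'.leadingCoeff := by
    by_cases hp : (l + m + n) % 2 = 0
    · have a := Dl_even l m n hp
      have a1 := H.dp1
      have a2 := H.dp2
      have a3 := H.dp3
      have a4 := H.dp4
      have a5 := H.dB
      have a6 : ((p1.natDegree + p2.natDegree + p3.natDegree + p4.natDegree : ℕ) : ℤ) =
          ((2 * B.natDegree : ℕ) : ℤ) := by
        push_cast
        linarith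
      rw [lE (by exact_mod_cast a6)]
      have hp' : ¬ ((l + 1 + m + n) % 2 = 0) := by omega
      unfold tau
      rw [if_pos hp, if_neg hp']
      push_cast
      ring
    · have a := Dl_odd l m n hp
      have a1 := H.dq1
      have a2 := H.dq2
      have a3 := H.dq3
      have a4 := H.dq4
      have a5 := H.dB
      have a6 : ((q1.natDegree + q2.natDegree + q3.natDegree + q4.natDegree : ℕ) : ℤ) =
          ((2 * B.natDegree : ℕ) : ℤ) := by
        push_cast
        linarith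
      rw [lO (by exact_mod_cast a6)]
      have hp' : (l + 1 + m + n) % 2 = 0 := by omega
      unfold tau
      rw [if_neg hp, if_pos hp']
      push_cast
      linear_combination (-B'.leadingCoeff) * h0
  obtain ⟨_, nr1, D1⟩ := deg_prod nB' dA' lA' t1' h1'
  obtain ⟨_, nr2, D2⟩ := deg_prod nB' dA' lA' t2' h2'
  obtain ⟨nr3, _, D3⟩ := deg_prod nB' dA' lA' t3' h3'
  obtain ⟨nr4, _, D4⟩ := deg_prod nB' dA' lA' t4' h4'
  have ee : l + 1 - 1 = l := by ring
  refine ⟨r1, r2, r3, r4, A', B', ?_⟩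
  have D1' : ((E (l - 1) m n : ℕ) : ℤ) + q2.natDegree + r1.natDegree = B'.natDegree := by
    exact_mod_cast D1
  have D2' : ((E l m n : ℕ) : ℤ) + q1.natDegree + r2.natDegree = B'.natDegree := by
    exact_mod_cast D2
  have D3' : ((E l m (n - 1) : ℕ) : ℤ) + r3.natDegree + p4.natDegree = B'.natDegree := by
    exact_mod_cast D3
  have D4' : ((E l (m - 1) n : ℕ) : ℤ) + r4.natDegree + p3.natDegree = B'.natDegree := by
    exact_mod_cast D4
  have O1 := Dl_opp1 (l + 1) m n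
  have O2 := Dl_opp2 (l + 1) m n
  have O3 := Dl_opp3 (l + 1) m n
  have O4 := Dl_opp4 (l + 1) m n
  rw [E_add_one, ee] at O1
  rw [ee] at O2
  rw [E_add_one', ee] at O3
  rw [E_add_one'', ee] at O4
  have P3 := H.dp3
  have P4 := H.dp4
  have Q1 := H.dq1
  have Q2 := H.dq2
  have dB'' : 2 * (B'.natDegree : ℤ) = (l + 1) * l + m * (m - 1) + n * (n - 1) := by
    rw [dB', ee]
  refine
    { st := ?_, np1 := H.nq2, np2 := H.nq1, np3 := nr3, np4 := nr4, nq1 := nr1, nq2 := nr2,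
      nq3 := H.np4, nq4 := H.np3, nB := nB', dp1 := ?_, dp2 := ?_, dp3 := ?_, dp4 := ?_,
      dq1 := ?_, dq2 := ?_, dq3 := ?_, dq4 := ?_, dB := dB', dA := dA', lA := lA', sq := ?_ }
  · refine { he := E_sum (l + 1) m n, h1 := ?_, h2 := ?_, h3 := ?_, h4 := ?_, hs := ?_, cop := hcop }
    · rw [E_add_one]; exact h1'
    · rw [ee]; exact h2'
    · rw [E_add_one']; exact h3'
    · rw [E_add_one'']; exact h4'
    · exact hs'
  · rw [ee]; exact Q2
  · rw [ee]; exact Q1
  · linarith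
  · linarith
  · linarith
  · linarith
  · rw [ee]; exact P4
  · rw [ee]; exact P3
  · rw [E_add_one, ee, E_add_one', E_add_one'']
    have he := H.st.he
    have hF' := fam_ne_zero (c1 := c1) (c2 := c2) (c3 := c3) (c4 := c4) nB' dA'
    obtain ⟨F12, F34⟩ := fam_mul he hB hV hAA
    have hsq := H.sq
    generalize E l m n = e1 at *
    generalize E (l - 1) m n = e2 at *
    generalize E l (m - 1) n = e3 at *
    generalize E l m (n - 1) = e4 at *
    have hcase : (e1 = 1 ∧ e2 = 0 ∧ e3 = 0 ∧ e4 = 0) ∨ (e1 = 0 ∧ e2 = 1 ∧ e3 = 0 ∧ e4 = 0) ∨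
        (e1 = 0 ∧ e2 = 0 ∧ e3 = 1 ∧ e4 = 0) ∨ (e1 = 0 ∧ e2 = 0 ∧ e3 = 0 ∧ e4 = 1) := by omega
    rcases hcase with h | h | h | h <;> obtain ⟨a1, a2, a3, a4⟩ := h
    · obtain ⟨Z, hZ⟩ := F12 (by omega)
      have x1 : cls c1 c2 c3 c4 e1 e2 e3 e4 = c1 := by unfold cls; rw [a1, a2, a3, a4]; push_cast; ring
      have x2 : cls c1 c2 c3 c4 e2 e1 e4 e3 = c2 := by unfold cls; rw [a1, a2, a3, a4]; push_cast; ring
      rw [x1] at hsq
      rw [x2]
      exact sq_class hsq hF' hZ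
    · obtain ⟨Z, hZ⟩ := F12 (by omega)
      have x1 : cls c1 c2 c3 c4 e1 e2 e3 e4 = c2 := by unfold cls; rw [a1, a2, a3, a4]; push_cast; ring
      have x2 : cls c1 c2 c3 c4 e2 e1 e4 e3 = c1 := by unfold cls; rw [a1, a2, a3, a4]; push_cast; ring
      rw [x1] at hsq
      rw [x2]
      exact sq_class (Z := Z) hsq hF' (by rw [hZ]; ring)
    · obtain ⟨Z, hZ⟩ := F34 (by omega)
      have x1 : cls c1 c2 c3 c4 e1 e2 e3 e4 = c3 := by unfold cls; rw [a1, a2, a3, a4]; push_cast; ring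
      have x2 : cls c1 c2 c3 c4 e2 e1 e4 e3 = c4 := by unfold cls; rw [a1, a2, a3, a4]; push_cast; ring
      rw [x1] at hsq
      rw [x2]
      exact sq_class hsq hF' hZ
    · obtain ⟨Z, hZ⟩ := F34 (by omega)
      have x1 : cls c1 c2 c3 c4 e1 e2 e3 e4 = c4 := by unfold cls; rw [a1, a2, a3, a4]; push_cast; ring
      have x2 : cls c1 c2 c3 c4 e2 e1 e4 e3 = c3 := by unfold cls; rw [a1, a2, a3, a4]; push_cast; ring
      rw [x1] at hsq
      rw [x2]
      exact sq_class (Z := Z) hsq hF' (by rw [hZ]; ring)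

end Pool.Agent.Helper28.EF
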